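import Pool.Agent.U221.VG.Trd

/-! The generic cubic form which vanishes on a linear subspace of at most half the dimension is
smooth. -/

set_option autoImplicit false

namespace Pool.Agent.U221.VG

open MvPolynomial Pool.Agent.R845.E3

noncomputable section

variable {N : ℕ}

open Classical in
/-- a special cubic form -/
def fer (q : Fin N → Prop) (τ : Fin N → Fin N) (K : Type) [Field K] : MvPolynomial (Fin N) K :=
  ∑ a, if q a then X a ^ 2 * X (τ a) else X a ^ 3

theorem fer_homog (q : Fin N → Prop) (τ : Fin N → Fin N) (K : Type) [Field K] :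
    (fer q τ K).IsHomogeneous 3 := by
  unfold fer
  refine IsHomogeneous.sum _ _ _ fun a _ => ?_
  split_ifs
  · exact ((isHomogeneous_X K _).pow 2).mul (isHomogeneous_X K _)
  · exact (isHomogeneous_X K _).pow 3

theorem fer_vanQ (q : Fin N → Prop) {τ : Fin N → Fin N} (hτ : ∀ a, q a → ¬ q (τ a)) (K : Type)
    [Field K] : VanQ q (fer q τ K) := by
  unfold fer VanQ
  refine sum_mem fun a _ => ?_
  split_ifs with h
  · exact Ideal.mul_mem_left _ _ (Ideal.subset_span ⟨_, hτ a h, rfl⟩)
  · rw [pow_succ]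
    exact Ideal.mul_mem_left _ _ (Ideal.subset_span ⟨_, h, rfl⟩)

theorem map_fer (q : Fin N → Prop) (τ : Fin N → Fin N) {K L : Type} [Field K] [Field L]
    (f : K →+* L) : map f (fer q τ K) = fer q τ L := by
  unfold fer
  rw [map_sum]
  refine Finset.sum_congr rfl fun a _ => ?_
  split_ifs <;> simp

theorem fer_smooth (q : Fin N → Prop) {τ : Fin N → Fin N} (hτ : ∀ a, q a → ¬ q (τ a))
    (hinj : Function.Injective τ) (K : Type) [Field K] [CharZero K] (z : Fin N → K)
    (hz : ∀ i, eval z (pderiv i (fer q τ K)) = 0) : z = 0 := by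
  classical
  have hd : ∀ i, ∑ a, (if q a then 2 * z a * (if a = i then 1 else 0) * z (τ a) +
      z a ^ 2 * (if τ a = i then 1 else 0) else 3 * z a ^ 2 * (if a = i then 1 else 0)) = 0 := by
    intro i
    refine Eq.trans ?_ (hz i)
    unfold fer
    rw [map_sum, map_sum]
    refine Finset.sum_congr rfl fun a _ => ?_
    have hX : ∀ b : Fin N, eval z (pderiv i (X b : MvPolynomial (Fin N) K)) =
        if b = i then 1 else 0 := by
      intro b
      rw [pderiv_X]
      by_cases hb : b = i
      · rw [if_pos hb, hb, Pi.single_eq_same, map_one]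
      · rw [if_neg hb, Pi.single_eq_of_ne hb, map_zero]
    by_cases h1 : q a
    · rw [if_pos h1, if_pos h1, Derivation.leibniz, Derivation.leibniz_pow]
      simp only [smul_eq_mul, map_add, map_mul, map_pow, eval_X, hX, nsmul_eq_mul, map_ofNat,
        Nat.cast_ofNat]
      ring
    · rw [if_neg h1, if_neg h1, Derivation.leibniz_pow]
      simp only [smul_eq_mul, map_mul, map_pow, eval_X, hX, nsmul_eq_mul, map_ofNat,
        Nat.cast_ofNat]
      ring
  -- the coordinates with `q`
  have h1 : ∀ i, q i → z i * z (τ i) = 0 := by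
    intro i hi
    have h2 := hd i
    rw [Finset.sum_eq_single i] at h2
    · rw [if_pos hi, if_pos rfl, if_neg (fun h3 => hτ i hi (by rw [h3]; exact hi))] at h2
      have h3 : (2 : K) * (z i * z (τ i)) = 0 := by
        rw [← h2]
        ring
      exact (mul_eq_zero.1 h3).resolve_left two_ne_zero
    · intro a _ ha
      rw [if_neg ha]
      by_cases hqa : q a
      · rw [if_pos hqa, if_neg (fun h3 => hτ a hqa (by rw [h3]; exact hi))]
        ring
      · rw [if_neg hqa, mul_zero]
    · intro h
      exact absurd (Finset.mem_univ _) h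
  -- the other coordinates
  have h2 : ∀ i, ¬ q i → 3 * z i ^ 2 + ∑ a, (if q a ∧ τ a = i then z a ^ 2 else 0) = 0 := by
    intro i hi
    have h3 := hd i
    have h4 : ∀ a, (if q a then 2 * z a * (if a = i then 1 else 0) * z (τ a) +
        z a ^ 2 * (if τ a = i then 1 else 0) else 3 * z a ^ 2 * (if a = i then 1 else 0)) =
        (if a = i then 3 * z i ^ 2 else 0) + (if q a ∧ τ a = i then z a ^ 2 else 0) := by
      intro a
      by_cases hqa : q a
      · have hai : a ≠ i := fun h5 => hi (by rw [← h5]; exact hqa)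
        by_cases hta : τ a = i
        · rw [if_pos hqa, if_neg hai, if_neg hai, if_pos hta, if_pos ⟨hqa, hta⟩]
          ring
        · rw [if_pos hqa, if_neg hai, if_neg hai, if_neg hta, if_neg (fun h5 => hta h5.2)]
          ring
      · rw [if_neg hqa, if_neg (show ¬ (q a ∧ τ a = i) from fun h5 => hqa h5.1)]
        by_cases hai : a = i
        · rw [if_pos hai, if_pos hai, hai]
          ring
        · rw [if_neg hai, if_neg hai]
          ring
    rw [Finset.sum_congr rfl fun a _ => h4 a, Finset.sum_add_distrib] at h3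
    refine Eq.trans ?_ h3
    congr 1
    rw [Finset.sum_ite_eq' Finset.univ i, if_pos (Finset.mem_univ _)]
  have h3 : ∀ a, q a → z a = 0 ∧ z (τ a) = 0 := by
    intro a ha
    have h4 := h2 (τ a) (hτ a ha)
    rw [Finset.sum_eq_single a] at h4
    · rw [if_pos ⟨ha, rfl⟩] at h4
      have h5 := h1 a ha
      have h6 : z a ^ 4 = 0 := by
        linear_combination z a ^ 2 * h4 - 3 * z a * z (τ a) * h5
      have h7 : z a = 0 := pow_eq_zero_iff (by norm_num) |>.1 h6
      refine ⟨h7, ?_⟩
      rw [h7] at h4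
      have h8 : (3 : K) * z (τ a) ^ 2 = 0 := by
        rw [← h4]
        ring
      exact pow_eq_zero_iff (by norm_num) |>.1 ((mul_eq_zero.1 h8).resolve_left three_ne_zero)
    · intro b _ hb
      rw [if_neg]
      rintro ⟨-, h5⟩
      exact hb (hinj h5)
    · intro h
      exact absurd (Finset.mem_univ _) h
  funext i
  rw [Pi.zero_apply]
  by_cases hi : q i
  · exact (h3 i hi).1
  by_cases hex : ∃ a, q a ∧ τ a = i
  · obtain ⟨a, ha, rfl⟩ := hex
    exact (h3 a ha).2
  · have h4 := h2 i hi
    rw [Finset.sum_eq_zero (fun a _ => if_neg (fun h5 => hex ⟨a, h5⟩)), add_zero] at h4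
    exact pow_eq_zero_iff (by norm_num) |>.1 ((mul_eq_zero.1 h4).resolve_left three_ne_zero)

/-- **The generic cubic form which vanishes on `P` is smooth.** -/
theorem smooth_of_ind (q : Fin N → Prop) (hq : 2 * Nat.card {a // q a} ≤ N)
    {F : MvPolynomial (Fin N) ℂ} (hF : F.IsHomogeneous 3) (hQ : VanQ q F)
    (hind : AlgebraicIndependent ℚ (fun β : MQ q => coeff β.1 F)) : Sm F := by
  classical
  intro z hz
  by_contra hz0
  have hcn : Nat.card {a : Fin N // q a} + Nat.card {a : Fin N // ¬ q a} = N := card_not q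
  obtain ⟨τ, hinj, hτ⟩ := matching (le_refl N) q (fun a => ¬ q a) (by omega)
  set F0 : MvPolynomial (Fin N) ℚ := fer q τ ℚ with hF0
  have hF0h : F0.IsHomogeneous 3 := fer_homog q τ ℚ
  have hF0Q : VanQ q F0 := fer_vanQ q hτ ℚ
  obtain ⟨V, ψ, hψ, hψ0⟩ := exists_place (fun β : MQ q => coeff β.1 F) hind
    (fun β => coeff β.1 F0)
  let κ := IsLocalRing.ResidueField V
  let r : V →+* κ := IsLocalRing.residue V
  let _ : Algebra ℚ κ := (r.comp (ψ.comp C)).toAlgebra
  have hex : ∀ β, ∃ v : V, (v : ℂ) = coeff β F ∧ r v = algebraMap ℚ κ (coeff β F0) := by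
    intro β
    by_cases h3 : β.degree = 3
    · by_cases hy : ∃ a, ¬ q a ∧ β a ≠ 0
      · refine ⟨ψ (X ⟨β, h3, hy⟩), ?_, ?_⟩
        · rw [hψ, aeval_X]
        · have h1 := hψ0 (X ⟨β, h3, hy⟩)
          rw [eval_X] at h1
          exact h1
      · have hy' : ∀ a, β a ≠ 0 → q a := by
          intro a ha
          by_contra hqa
          exact hy ⟨a, hqa, ha⟩
        refine ⟨0, ?_, ?_⟩
        · rw [hQ.coeff β hy']; rfl
        · rw [hF0Q.coeff β hy', map_zero, map_zero]
    · refine ⟨0, ?_, ?_⟩
      · rw [hF.coeff_eq_zero h3]; rfl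
      · rw [hF0h.coeff_eq_zero h3, map_zero, map_zero]
  obtain ⟨FV, hFV⟩ : ∃ FV : MvPolynomial (Fin N) V, map V.subtype FV = F := by
    have h1 : F ∈ Set.range (MvPolynomial.map V.subtype) := by
      rw [mem_range_map_iff_coeffs_subset]
      intro c hc
      rw [Finset.mem_coe, mem_coeffs_iff] at hc
      obtain ⟨β, -, rfl⟩ := hc
      obtain ⟨v, hv, -⟩ := hex β
      exact ⟨v, hv⟩
    exact h1
  have hFr : map r FV = map (algebraMap ℚ κ) F0 := by
    ext β
    rw [coeff_map, coeff_map]
    obtain ⟨v, hv, hv2⟩ := hex β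
    have h1 : coeff β FV = v := by
      apply Subtype.ext
      rw [hv, ← hFV, coeff_map]
      rfl
    rw [h1, hv2]
  -- scaling
  obtain ⟨i1, hi1⟩ : ∃ i, z i ≠ 0 := by
    by_contra hcon
    push Not at hcon
    exact hz0 (_root_.funext hcon)
  obtain ⟨i0, -, hmax⟩ := Finset.univ.exists_max_image (fun i => V.valuation (z i))
    ⟨i1, Finset.mem_univ _⟩
  have hi0 : z i0 ≠ 0 := by
    intro h0
    have h1 := hmax i1 (Finset.mem_univ _)
    simp only [h0, map_zero] at h1
    exact hi1 ((Valuation.zero_iff _).1 (le_antisymm h1 zero_le))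
  have hv0 : V.valuation (z i0) ≠ 0 := (Valuation.ne_zero_iff _).2 hi0
  have hmem : ∀ i, (z i0)⁻¹ * z i ∈ V := by
    intro i
    rw [← ValuationSubring.valuation_le_one_iff, map_mul, map_inv₀]
    calc (V.valuation (z i0))⁻¹ * V.valuation (z i) ≤
          (V.valuation (z i0))⁻¹ * V.valuation (z i0) :=
          mul_le_mul_right (hmax i (Finset.mem_univ _)) _
      _ = 1 := inv_mul_cancel₀ hv0
  set w : Fin N → V := fun i => ⟨(z i0)⁻¹ * z i, hmem i⟩ with hw
  have hw0 : w i0 = 1 := by
    apply Subtype.ext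
    show (z i0)⁻¹ * z i0 = 1
    exact inv_mul_cancel₀ hi0
  have hwz : ∀ i, eval w (pderiv i FV) = 0 := by
    intro i
    apply Subtype.ext
    have h1 : V.subtype (eval w (pderiv i FV)) =
        eval (fun j => V.subtype (w j)) (map V.subtype (pderiv i FV)) := by
      rw [eval_map]
      exact (eval₂_comp_left _ _ _ _)
    have h2 : eval (fun j => V.subtype (w j)) (pderiv i F) = 0 := by
      have h3 := aeval_scale (hF.pderiv (i := i)) (z i0)⁻¹ z
      rw [aeval_eq_eval, aeval_eq_eval, hz i, mul_zero] at h3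
      exact h3
    rw [← pderiv_map, hFV, h2] at h1
    exact h1
  have hrz : ∀ i, eval (fun j => r (w j)) (pderiv i (fer q τ κ)) = 0 := by
    intro i
    have h1 : r (eval w (pderiv i FV)) = eval (fun j => r (w j)) (map r (pderiv i FV)) := by
      rw [eval_map]
      exact (eval₂_comp_left _ _ _ _)
    rw [hwz i, map_zero, ← pderiv_map, hFr, hF0, map_fer] at h1
    exact h1.symm
  have : CharZero κ := algebraRat.charZero κ
  have h1 := fer_smooth q hτ hinj κ (fun j => r (w j)) hrz
  have h2 := congrFun h1 i0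
  simp only [hw0, map_one, Pi.zero_apply] at h2
  exact one_ne_zero h2

end

end Pool.Agent.U221.VG
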