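import Pool.Agent.U221.VG.Trd
import Pool.Agent.R845.E3.At

/-! The projection of a very general cubic hypersurface containing `P` from any linear subspace has
no rational section (adapted from `Pool.Agent.R845.E3.At`). -/

set_option autoImplicit false

namespace Pool.Agent.U221.VG

open MvPolynomial Pool.Agent.TH314.PD IntermediateField Module FF Pool.Agent.R845.E3 At1

noncomputable section

variable {k m : ℕ}

open Classical in
/-- the matrix with given entries at the positions of `PT q` -/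
def tv {A : Type} [CommRing A] (q : Fin (k + 1 + (m + 1)) → Prop) (V : PT q → A) :
    Fin (k + 1) → Fin (m + 1) → A := fun i j =>
  if h : ¬ (q (Fin.castAdd (m + 1) i) ∧ ¬ q (Fin.natAdd (k + 1) j)) then V ⟨(i, j), h⟩ else 0

theorem tv_at {A : Type} [CommRing A] (q : Fin (k + 1 + (m + 1)) → Prop) (V : PT q → A)
    (τ : PT q) : tv q V τ.1.1 τ.1.2 = V τ := by
  unfold tv
  rw [dif_pos τ.2]

theorem tv_pat {K : Type} [Field K] (q : Fin (k + 1 + (m + 1)) → Prop) (V : PT q → K) :
    Pat q (tv q V) := by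
  intro i j h1 h2
  unfold tv
  rw [dif_neg (not_not.2 ⟨h1, h2⟩)]

theorem tv_map {A B : Type} [CommRing A] [CommRing B] (q : Fin (k + 1 + (m + 1)) → Prop)
    (V : PT q → A) (f : A →+* B) : (fun i j => f (tv q V i j)) = tv q (fun τ => f (V τ)) := by
  funext i j
  unfold tv
  split_ifs
  · rw [map_zero]
  · rfl

/-- the equations -/
def eqs' {c D : ℕ} {Ω : Type} [Field Ω] [Algebra ℂ Ω] (q : Fin (k + 1 + (m + 1)) → Prop)
    [Fintype (PT q)] (e : PT q ≃ Fin D) (a : Fin c → PT q → Ω)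
    (G : MvPolynomial (Fin (k + 1 + (m + 1))) ℂ) : EQ q ⊕ Fin c → MvPolynomial (Fin D) Ω :=
  Sum.elim
    (fun γ => coeff γ.1 (rst (tv q fun τ => (X (e τ) : MvPolynomial (Fin D) Ω)) G))
    (fun l => ∑ τ : PT q, C (a l τ) * X (e τ))

theorem eqs_zero' {c D : ℕ} {Ω : Type} [Field Ω] [Algebra ℂ Ω]
    (q : Fin (k + 1 + (m + 1)) → Prop)
    [Fintype (PT q)] (e : PT q ≃ Fin D) (a : Fin c → PT q → Ω)
    (G : MvPolynomial (Fin (k + 1 + (m + 1))) ℂ) (hV : VanW G) (x : EQ q ⊕ Fin c) :
    eval 0 (eqs' q e a G x) = 0 := by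
  rcases x with γ | l
  · have h1 := rst_map (eval (0 : Fin D → Ω)) (fun c => by
      rw [MvPolynomial.algebraMap_apply, eval_C])
      (tv q fun τ => (X (e τ) : MvPolynomial (Fin D) Ω)) G
    have h2 : (fun i j => eval (0 : Fin D → Ω) (tv q (fun τ => X (e τ)) i j)) =
        fun _ _ => (0 : Ω) := by
      rw [tv_map q _ (eval (0 : Fin D → Ω))]
      funext i j
      unfold tv
      split_ifs
      · rfl
      · exact eval_X _
    rw [h2, rst_zero G hV] at h1
    have h3 := congrArg (coeff γ.1) h1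
    rw [coeff_map, coeff_zero] at h3
    exact h3
  · show eval 0 (∑ τ : PT q, C (a l τ) * X (e τ)) = 0
    rw [map_sum]
    refine Finset.sum_eq_zero fun τ _ => ?_
    rw [map_mul, eval_X]
    simp

/-- the equations for a linear subspace -/
theorem eqs_rst' {c D : ℕ} {Ω : Type} [Field Ω] [Algebra ℂ Ω]
    (q : Fin (k + 1 + (m + 1)) → Prop)
    [Fintype (PT q)] (e : PT q ≃ Fin D) (a : Fin c → PT q → Ω)
    (G : MvPolynomial (Fin (k + 1 + (m + 1))) ℂ) (hG : G.IsHomogeneous 3) (hQ : VanQ q G)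
    {K : Type} [Field K] [Algebra Ω K] [Algebra ℂ K] [IsScalarTower ℂ Ω K]
    (V : Fin D → K) (h : ∀ x, aeval V (eqs' q e a G x) = 0) :
    rst (tv q fun τ => V (e τ)) G = 0 := by
  classical
  have h1 := rst_map (eval₂Hom (algebraMap Ω K) V) (fun c => by
      rw [MvPolynomial.algebraMap_apply]
      show eval₂ _ _ (C (algebraMap ℂ Ω c)) = _
      rw [eval₂_C]
      exact (IsScalarTower.algebraMap_apply ℂ Ω K c).symm)
      (tv q fun τ => (X (e τ) : MvPolynomial (Fin D) Ω)) G
  have h2 : (fun i j => eval₂Hom (algebraMap Ω K) V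
      (tv q (fun τ => (X (e τ) : MvPolynomial (Fin D) Ω)) i j)) = tv q fun τ => V (e τ) := by
    rw [tv_map q _ (eval₂Hom (algebraMap Ω K) V)]
    congr 1
    funext τ
    exact eval₂_X _ _ _
  rw [h2] at h1
  ext γ
  rw [coeff_zero]
  by_cases hγ : γ.degree = 3
  · by_cases hq : ∃ i, ¬ q (Fin.castAdd (m + 1) i) ∧ γ i ≠ 0
    · have h3 := h (Sum.inl ⟨γ, hγ, hq⟩)
      have h5 : eqs' q e a G (Sum.inl ⟨γ, hγ, hq⟩) =
        coeff γ (rst (tv q fun τ => (X (e τ) : MvPolynomial (Fin D) Ω)) G) := rfl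
      rw [h5] at h3
      rw [← h1, coeff_map]
      exact h3
    · have h3 : VanQ q (shear (tv q fun τ => V (e τ)) (map (algebraMap ℂ K) G)) :=
        vanQ_shear (tv_pat q _) (hQ.map _)
      have h4 := h3.coeff (γ.mapDomain (Fin.castAdd (m + 1))) (by
        intro a ha
        revert ha
        refine Fin.addCases (fun i ha => ?_) (fun j ha => ?_) a
        · rw [mapDomain_cast] at ha
          by_contra hi
          exact hq ⟨i, hi, ha⟩
        · exact absurd (mapDomain_nat _ _) ha)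
      rw [← coeff_append _ _ (fun j => mapDomain_nat γ j), rst_shear] at h4
      have h6 : Finsupp.comapDomain (Fin.castAdd (m + 1)) (γ.mapDomain (Fin.castAdd (m + 1)))
          (Fin.castAdd_injective _ _).injOn = γ := by
        ext i
        rw [Finsupp.comapDomain_apply, mapDomain_cast]
      rwa [h6] at h4
  · exact (rst_hom _ G hG).coeff_eq_zero hγ

theorem eqs_lin' {c D : ℕ} {Ω : Type} [Field Ω] [Algebra ℂ Ω]
    (q : Fin (k + 1 + (m + 1)) → Prop)
    [Fintype (PT q)] (e : PT q ≃ Fin D) (a : Fin c → PT q → Ω)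
    (G : MvPolynomial (Fin (k + 1 + (m + 1))) ℂ)
    {K : Type} [Field K] [Algebra Ω K] (V : Fin D → K)
    (h : ∀ x, aeval V (eqs' q e a G x) = 0) (l : Fin c) :
    ∑ τ : PT q, algebraMap Ω K (a l τ) * V (e τ) = 0 := by
  have h1 := h (Sum.inr l)
  have h2 : eqs' q e a G (Sum.inr l) = ∑ τ : PT q, C (a l τ) * X (e τ) := rfl
  rw [h2, map_sum] at h1
  rw [← h1]
  refine Finset.sum_congr rfl fun τ _ => ?_
  rw [map_mul, aeval_C, aeval_X]

/-- the case of many linear subspaces, over a given field -/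
theorem at_large_aux' (curve : S_CURVE) (trans : S_TRANS) (trdb : S_TRDB)
    (q : Fin (k + 1 + (m + 1)) → Prop) (hkm : k ≤ m) (h3 : 3 ≤ k + m)
    (hq : 2 * Nat.card {a // q a} ≤ k + m + 2) (hex : k = m → ∃ j, ¬ q (Fin.natAdd (k + 1) j))
    (c : ℕ) (hc : c = Nat.card (PT q) - Nat.card (EQ q) - 1)
    (hD : Nat.card (EQ q) < Nat.card (PT q))
    (F : MvPolynomial (Fin (k + 1 + (m + 1))) ℂ) (hF : F.IsHomogeneous 3) (hS : Sm F)
    (hQ : VanQ q F) (hind : AlgebraicIndependent ℚ (fun β : MQ q => coeff β.1 F))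
    (U : Fin (k + 1) → Fin (m + 1) → ℂ) (hU : Pat q U) (hV : VanW (shear U F))
    (hI : Iso (shear U F))
    (Ω : Type) [Field Ω] [Algebra ℂ Ω] [IsAlgClosed Ω] [CharZero Ω]
    (a : Fin c → PT q → Ω)
    (ha : AlgebraicIndependent ℂ (fun x : Fin c × PT q => a x.1 x.2)) :
    False := by
  classical
  have hF'h : (shear U F).IsHomogeneous 3 := shear_hom U F hF
  have hF's : Sm (shear U F) := sm_shear U F hS
  have hF'Q : VanQ q (shear U F) := vanQ_shear hU hQ
  obtain ⟨D, hDd⟩ : ∃ D, D = Nat.card (PT q) := ⟨_, rfl⟩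
  obtain ⟨e⟩ : Nonempty (PT q ≃ Fin D) :=
    ⟨Fintype.equivFinOfCardEq (by rw [hDd, Nat.card_eq_fintype_card])⟩
  have : Fintype (EQ q) := Fintype.ofFinite _
  have hJ : Fintype.card (EQ q ⊕ Fin c) = D - 1 := by
    rw [Fintype.card_sum, Fintype.card_fin, ← Nat.card_eq_fintype_card (α := EQ q)]
    omega
  obtain ⟨g⟩ : Nonempty (EQ q ⊕ Fin c ≃ Fin (D - 1)) :=
    ⟨Fintype.equivFinOfCardEq hJ⟩
  obtain ⟨K, fK, aK, P, V, hVP, hV0, hVp⟩ := curve Ω D (D - 1) (by omega)
    (fun l => eqs' q e a (shear U F) (g.symm l)) (fun l => eqs_zero' q e a (shear U F) hV _)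
  have hVp' : ∀ x : EQ q ⊕ Fin c, aeval V (eqs' q e a (shear U F) x) = 0 := by
    intro x
    have := hVp (g x)
    rwa [g.symm_apply_apply] at this
  letI aC : Algebra ℂ K := ((algebraMap Ω K).comp (algebraMap ℂ Ω)).toAlgebra
  haveI tC : IsScalarTower ℂ Ω K := IsScalarTower.of_algebraMap_eq (fun c => rfl)
  clear_value aC
  haveI : CharZero K := charZero_of_injective_algebraMap (algebraMap ℂ K).injective
  set W : Fin (k + 1) → Fin (m + 1) → K := tv q fun τ => V (e τ) with hWd
  have hV'P : ∀ (i : Fin (k + 1)) (j : Fin (m + 1)), W i j = 0 ∨ 0 < P.ord (W i j) := by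
    intro i j
    rw [hWd]
    unfold tv
    split_ifs
    · exact Or.inl rfl
    · exact hVP _
  have hrst := eqs_rst' q e a (shear U F) hF'h hF'Q V hVp'
  have hVan : VanW (shear W (map (algebraMap ℂ K) (shear U F))) := by
    unfold VanW
    rw [rst_shear]
    exact hrst
  have hIso := trans k m (shear U F) hF'h hF's hV hI Ω K P W hV'P hVan
  -- a transcendental entry
  have htr : ∃ τ : PT q, Transcendental Ω (V (e τ)) := by
    obtain ⟨τ, hτ⟩ := Function.ne_iff.mp hV0
    refine ⟨e.symm τ, ?_⟩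
    rw [Equiv.apply_symm_apply]
    rcases hVP τ with h | h
    · exact absurd h hτ
    · exact transcendental_of_ord P _ hτ h
  have hlin := eqs_lin' q e a (shear U F) V hVp'
  obtain ⟨Θ, hΘ, hind2⟩ := trdb (PT q) (Fin c) Ω K a
    (fun τ => U τ.1.1 τ.1.2) (fun τ => V (e τ)) ha htr hlin
  rw [Fintype.card_fin] at hΘ
  have hUV : shear (fun i j => algebraMap ℂ K (U i j) + W i j)
      (map (algebraMap ℂ K) F) = shear W (map (algebraMap ℂ K) (shear U F)) := by
    rw [map_shear, shear_shear]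
  have hpat : Pat q (fun i j => algebraMap ℂ K (U i j) + W i j) := by
    intro i j h1 h2
    show algebraMap ℂ K (U i j) + W i j = 0
    rw [hU i j h1 h2, map_zero, zero_add]
    exact tv_pat q _ i j h1 h2
  have hind3 : AlgebraicIndependent ℂ
      (fun τ : Θ => (fun i j => algebraMap ℂ K (U i j) + W i j) τ.1.1.1 τ.1.1.2) := by
    have h5 : (fun τ : Θ => (fun i j => algebraMap ℂ K (U i j) + W i j) τ.1.1.1 τ.1.1.2) =
        fun τ : Θ => algebraMap ℂ K (U τ.1.1.1 τ.1.1.2) + V (e τ.1) := by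
      funext τ
      show algebraMap ℂ K (U τ.1.1.1 τ.1.1.2) + W τ.1.1.1 τ.1.1.2 = _
      rw [hWd, tv_at]
    rw [h5]
    exact hind2
  obtain ⟨-, hfin⟩ := trda' q F hF hQ hind K
    (fun i j => algebraMap ℂ K (U i j) + W i j) hpat Θ hind3
    (by omega) (by rw [hUV]; exact hVan)
  rw [hUV] at hfin
  have hF'K : (map (algebraMap ℂ K) (shear U F)).IsHomogeneous 3 := hF'h.map _
  exact gen' q hkm h3 hq hex (shear_hom _ _ hF'K) hVan (vanQ_shear (tv_pat q _) (hF'Q.map _))
    hfin hIso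

/-- the number of positions in the exceptional case -/
theorem card_exc (q : Fin (k + 1 + (m + 1)) → Prop) (hkm : k = m) (h3 : 3 ≤ k + m)
    (hq : 2 * Nat.card {a // q a} ≤ k + m + 2) (hex : ∀ j, q (Fin.natAdd (k + 1) j)) :
    Nat.card (PT q) < Nat.card (EQ q) := by
  classical
  have h1 := card_split q
  have h2 : Nat.card {j : Fin (m + 1) // q (Fin.natAdd (k + 1) j)} = m + 1 := by
    have h5 : Nat.card {j : Fin (m + 1) // q (Fin.natAdd (k + 1) j)} = Nat.card (Fin (m + 1)) :=
      Nat.card_congr (Equiv.subtypeUnivEquiv hex)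
    rw [h5, Nat.card_eq_fintype_card, Fintype.card_fin]
  have h4 : Nat.card {i : Fin (k + 1) // q (Fin.castAdd (m + 1) i)} = 0 := by omega
  have h5 : ∀ i : Fin (k + 1), ¬ q (Fin.castAdd (m + 1) i) := by
    intro i hi
    rw [Nat.card_eq_zero] at h4
    rcases h4 with h4 | h4
    · exact h4.false ⟨i, hi⟩
    · exact (not_finite_iff_infinite.2 h4) inferInstance
  have h6 : Nat.card (PT q) = (k + 1) * (m + 1) := by
    have h7 : Nat.card (PT q) = Nat.card (Fin (k + 1) × Fin (m + 1)) :=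
      Nat.card_congr (Equiv.subtypeUnivEquiv fun τ h => h5 _ h.1)
    rw [h7, Nat.card_eq_fintype_card, Fintype.card_prod, Fintype.card_fin, Fintype.card_fin]
  have h8 : Nat.card (EQ q) = (k + 3).choose 3 := by
    rw [← card_degree k]
    refine Nat.card_congr (Equiv.subtypeEquivRight fun γ => ⟨fun h => h.1, fun h => ⟨h, ?_⟩⟩)
    by_contra hcon
    push Not at hcon
    have h9 : γ = 0 := by
      ext i
      exact hcon i (h5 i)
    rw [h9] at h
    simp at h
  rw [h6, h8]
  exact num_lt h3 (le_of_eq hkm.symm)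

/-- **Very general cubic hypersurfaces containing `P`, in adapted coordinates.** -/
theorem at' (curve : S_CURVE) (trans : S_TRANS) (trdb : S_TRDB)
    (q : Fin (k + 1 + (m + 1)) → Prop) (hkm : k ≤ m) (h3 : 3 ≤ k + m)
    (hq : 2 * Nat.card {a // q a} ≤ k + m + 2)
    {F : MvPolynomial (Fin (k + 1 + (m + 1))) ℂ} (hF : F.IsHomogeneous 3) (hS : Sm F)
    (hQ : VanQ q F) (hind : AlgebraicIndependent ℚ (fun β : MQ q => coeff β.1 F))
    (U : Fin (k + 1) → Fin (m + 1) → ℂ) (hU : Pat q U) (hV : VanW (shear U F)) :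
    ¬ Iso (shear U F) := by
  classical
  intro hI
  rcases Nat.lt_or_ge (Nat.card (EQ q)) (Nat.card (PT q)) with hD | hD
  · have hex : k = m → ∃ j, ¬ q (Fin.natAdd (k + 1) j) := by
      intro hkm'
      by_contra hcon
      push Not at hcon
      have := card_exc q hkm' h3 hq hcon
      omega
    obtain ⟨Ω, fΩ, aΩ, cΩ, a, ha⟩ := exists_generic
      (Fin (Nat.card (PT q) - Nat.card (EQ q) - 1) × PT q)
    haveI : CharZero Ω := charZero_of_injective_algebraMap (algebraMap ℂ Ω).injective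
    exact at_large_aux' curve trans trdb q hkm h3 hq hex _ rfl hD F hF hS hQ hind U hU hV hI Ω
      (fun l τ => a (l, τ)) ha
  · have hmap : ∀ G : MvPolynomial (Fin (k + 1 + (m + 1))) ℂ, map (algebraMap ℂ ℂ) G = G := by
      intro G
      rw [Algebra.algebraMap_self]
      exact map_id G
    have h1 := trda' q F hF hQ hind ℂ U hU ∅ (by
      have : IsEmpty (∅ : Finset (PT q)) :=
        ⟨fun x => absurd x.2 (Finset.notMem_empty _)⟩
      rw [algebraicIndependent_empty_type_iff]
      exact (algebraMap ℂ ℂ).injective) (by simpa using hD) (by rw [hmap]; exact hV)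
    rw [hmap] at h1
    obtain ⟨hDC, hfin⟩ := h1
    rw [Finset.card_empty, zero_add] at hDC
    have hex : k = m → ∃ j, ¬ q (Fin.natAdd (k + 1) j) := by
      intro hkm'
      by_contra hcon
      push Not at hcon
      have := card_exc q hkm' h3 hq hcon
      omega
    exact gen' q hkm h3 hq hex (shear_hom U F hF) hV (vanQ_shear hU hQ) hfin hI

end

end Pool.Agent.U221.VG
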