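import Mathlib

/-! Coordinates adapted to a linear subspace and to a fixed coordinate subspace. -/

set_option autoImplicit false

namespace Pool.Agent.U221.VG

open Module

theorem chart {k m N : ℕ} (hN : N = k + 1 + (m + 1)) (Q : Fin N → Prop)
    (v : Fin (k + 1) → Fin N → ℂ) (hv : LinearIndependent ℂ v) :
    ∃ (σ : Fin (k + 1 + (m + 1)) ≃ Fin N) (U : Fin (k + 1) → Fin (m + 1) → ℂ),
      LinearIndependent ℂ (fun i : Fin (k + 1) => fun l => v l (σ (Fin.castAdd (m + 1) i))) ∧
      (∀ j l, v l (σ (Fin.natAdd (k + 1) j)) =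
        ∑ i, U i j * v l (σ (Fin.castAdd (m + 1) i))) ∧
      ∀ i j, Q (σ (Fin.castAdd (m + 1) i)) → ¬ Q (σ (Fin.natAdd (k + 1) j)) → U i j = 0 := by
  classical
  set A : Fin N → Fin (k + 1) → ℂ := fun i l => v l i with hA
  have hspan : finrank ℂ (Submodule.span ℂ (Set.range A)) = k + 1 := by
    have h1 : (Matrix.of v).rank = k + 1 := by
      have h2 := LinearIndependent.rank_matrix (M := Matrix.of v) hv
      rwa [Fintype.card_fin] at h2
    rw [Matrix.rank_eq_finrank_span_cols] at h1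
    exact h1
  obtain ⟨b1, hb1, -, hs1, hi1⟩ := exists_linearIndepOn_extension (K := ℂ) (v := A)
    (s := ∅) (t := {a | ¬ Q a}) (linearIndepOn_empty _ _) (Set.empty_subset _)
  obtain ⟨b, -, hb2, hs2, hi2⟩ := exists_linearIndepOn_extension (K := ℂ) (v := A)
    (s := b1) (t := Set.univ) hi1 (Set.subset_univ _)
  rw [Set.image_univ] at hs2
  have hbcard : b.toFinset.card = k + 1 := by
    have h1 : Submodule.span ℂ (A '' b) = Submodule.span ℂ (Set.range A) := by
      apply le_antisymm
      · exact Submodule.span_mono (Set.image_subset_range _ _)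
      · rw [Submodule.span_le]
        exact hs2
    have h2 : LinearIndependent ℂ (fun x : b => A x) := hi2
    have h3 := finrank_span_eq_card h2
    have h4 : Set.range (fun x : b => A x) = A '' b := by
      ext z
      simp
    rw [h4, h1, hspan] at h3
    rw [Set.toFinset_card, ← h3]
  -- the coefficients
  have hco : ∀ i : Fin N, ∃ c : Fin N → ℂ, (∀ a, c a ≠ 0 → a ∈ b) ∧
      (¬ Q i → ∀ a, c a ≠ 0 → ¬ Q a) ∧ A i = ∑ a, c a • A a := by
    intro i
    by_cases hi : Q i
    · have h1 : A i ∈ Submodule.span ℂ (A '' b) := hs2 ⟨i, rfl⟩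
      rw [Finsupp.mem_span_image_iff_linearCombination] at h1
      obtain ⟨l, hl, hl2⟩ := h1
      refine ⟨l, fun a ha => hl (Finsupp.mem_support_iff.2 ha), fun h => absurd hi h, ?_⟩
      rw [← hl2, Finsupp.linearCombination_apply]
      exact Finsupp.sum_fintype _ _ (fun i => zero_smul ℂ (A i))
    · have h1 : A i ∈ Submodule.span ℂ (A '' b1) := hs1 ⟨i, hi, rfl⟩
      rw [Finsupp.mem_span_image_iff_linearCombination] at h1
      obtain ⟨l, hl, hl2⟩ := h1
      refine ⟨l, fun a ha => hb2 (hl (Finsupp.mem_support_iff.2 ha)),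
        fun _ a ha => hb1 (hl (Finsupp.mem_support_iff.2 ha)), ?_⟩
      rw [← hl2, Finsupp.linearCombination_apply]
      exact Finsupp.sum_fintype _ _ (fun i => zero_smul ℂ (A i))
  choose c hc1 hc2 hc3 using hco
  set I : Finset (Fin N) := b.toFinset with hI
  have hcard2 : Iᶜ.card = m + 1 := by
    rw [Finset.card_compl, hbcard, Fintype.card_fin]
    omega
  let σ' : Fin (k + 1) ⊕ Fin (m + 1) ≃ Fin N := finSumEquivOfFinset hbcard hcard2
  let σ : Fin (k + 1 + (m + 1)) ≃ Fin N := finSumFinEquiv.symm.trans σ'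
  have hσl : ∀ i : Fin (k + 1), σ (Fin.castAdd (m + 1) i) ∈ b := by
    intro i
    have h1 : σ (Fin.castAdd (m + 1) i) = σ' (Sum.inl i) := by
      simp only [σ, Equiv.trans_apply, finSumFinEquiv_symm_apply_castAdd]
    have h2 : σ (Fin.castAdd (m + 1) i) ∈ I := by
      rw [h1]
      simp only [σ', finSumEquivOfFinset_inl]
      exact Finset.orderEmbOfFin_mem _ _ _
    rwa [hI, Set.mem_toFinset] at h2
  have hσr : ∀ j : Fin (m + 1), σ (Fin.natAdd (k + 1) j) ∉ b := by
    intro j
    have h1 : σ (Fin.natAdd (k + 1) j) = σ' (Sum.inr j) := by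
      simp only [σ, Equiv.trans_apply, finSumFinEquiv_symm_apply_natAdd]
    have h2 : σ (Fin.natAdd (k + 1) j) ∈ Iᶜ := by
      rw [h1]
      simp only [σ', finSumEquivOfFinset_inr]
      exact Finset.orderEmbOfFin_mem _ _ _
    rwa [Finset.mem_compl, hI, Set.mem_toFinset] at h2
  refine ⟨σ, fun i j => c (σ (Fin.natAdd (k + 1) j)) (σ (Fin.castAdd (m + 1) i)), ?_, ?_, ?_⟩
  · have h2 : LinearIndependent ℂ (fun x : b => A x) := hi2
    exact h2.comp (fun i : Fin (k + 1) => (⟨σ (Fin.castAdd (m + 1) i), hσl i⟩ : b)) (by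
      intro i j hij
      have h3 : σ (Fin.castAdd (m + 1) i) = σ (Fin.castAdd (m + 1) j) :=
        congrArg Subtype.val hij
      exact Fin.castAdd_injective _ _ (σ.injective h3))
  · intro j l
    have h1 := congrFun (hc3 (σ (Fin.natAdd (k + 1) j))) l
    rw [Finset.sum_apply] at h1
    have h2 : v l (σ (Fin.natAdd (k + 1) j)) = A (σ (Fin.natAdd (k + 1) j)) l := rfl
    rw [h2, h1, ← Equiv.sum_comp σ, Fin.sum_univ_add]
    rw [Finset.sum_eq_zero (s := Finset.univ) (f := fun j' : Fin (m + 1) => _), add_zero]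
    · rfl
    · intro j' _
      have h3 : c (σ (Fin.natAdd (k + 1) j)) (σ (Fin.natAdd (k + 1) j')) = 0 := by
        by_contra h4
        exact hσr j' (hc1 _ _ h4)
      rw [h3, zero_smul]
      rfl
  · intro i j h1 h2
    by_contra h3
    exact hc2 _ h2 _ h3 h1

end Pool.Agent.U221.VG
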