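import Pool.Agent.U221.VG.Spc
import Pool.Agent.R668.At1

/-! Cubic forms which vanish on a fixed coordinate subspace `P` (the coordinates with `q`), and on
`W = (y = 0)`; the generic form of this kind. -/

set_option autoImplicit false

namespace Pool.Agent.U221.VG

open MvPolynomial Pool.Agent.R845.E3 At1

noncomputable section

section

variable {N : ℕ} {K L : Type} [Field K] [Field L]

/-- `F` vanishes on the linear subspace `P` where the coordinates `x_a` with `¬ q a` vanish -/
def VanQ (q : Fin N → Prop) (F : MvPolynomial (Fin N) K) : Prop :=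
  F ∈ Ideal.span ((X : Fin N → MvPolynomial (Fin N) K) '' {a | ¬ q a})

theorem VanQ.coeff {q : Fin N → Prop} {F : MvPolynomial (Fin N) K} (h : VanQ q F)
    (β : Fin N →₀ ℕ) (hβ : ∀ a, β a ≠ 0 → q a) : coeff β F = 0 := by
  by_contra hne
  obtain ⟨i, hi, hi2⟩ := mem_ideal_span_X_image.1 h β (mem_support_iff.2 hne)
  exact hi (hβ i hi2)

theorem VanQ.of_coeff {q : Fin N → Prop} {F : MvPolynomial (Fin N) K}
    (h : ∀ β : Fin N →₀ ℕ, (∀ a, β a ≠ 0 → q a) → MvPolynomial.coeff β F = 0) : VanQ q F := by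
  refine mem_ideal_span_X_image.2 fun β hβ => ?_
  by_contra hcon
  push Not at hcon
  refine (mem_support_iff.1 hβ) (h β fun a ha => ?_)
  by_contra hq
  exact ha (hcon a hq)

theorem VanQ.map {q : Fin N → Prop} {F : MvPolynomial (Fin N) K} (h : VanQ q F) (f : K →+* L) :
    VanQ q (MvPolynomial.map f F) :=
  VanQ.of_coeff fun β hβ => by rw [coeff_map, h.coeff β hβ, map_zero]

theorem VanQ.rename {M : ℕ} {q : Fin N → Prop} {F : MvPolynomial (Fin N) K} (h : VanQ q F)
    (σ : Fin M ≃ Fin N) : VanQ (fun a => q (σ a)) (MvPolynomial.rename σ.symm F) := by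
  have h1 : Ideal.map (MvPolynomial.rename (σ.symm : Fin N → Fin M) :
      MvPolynomial (Fin N) K →ₐ[K] MvPolynomial (Fin M) K)
      (Ideal.span ((X : Fin N → MvPolynomial (Fin N) K) '' {a | ¬ q a})) ≤
      Ideal.span ((X : Fin M → MvPolynomial (Fin M) K) '' {a | ¬ q (σ a)}) := by
    rw [Ideal.map_span, Ideal.span_le]
    rintro _ ⟨_, ⟨a, ha, rfl⟩, rfl⟩
    refine Ideal.subset_span ⟨σ.symm a, ?_, ?_⟩
    · show ¬ q (σ (σ.symm a))
      rw [Equiv.apply_symm_apply]
      exact ha
    · simp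
  exact h1 (Ideal.mem_map_of_mem _ h)

/-- forms which vanish at the points of `P` -/
theorem vanQ_of_eval {q : Fin N → Prop} {F : MvPolynomial (Fin N) ℂ}
    (h : ∀ z : Fin N → ℂ, (∀ a, ¬ q a → z a = 0) → eval z F = 0) : VanQ q F := by
  classical
  set f : Fin N → MvPolynomial (Fin N) ℂ := fun a => if q a then X a else 0 with hf
  have h1 : aeval f F = 0 := by
    apply MvPolynomial.funext
    intro z
    rw [map_zero, ← aeval_eq_eval, comp_aeval_apply, aeval_eq_eval]
    apply h
    intro a ha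
    rw [hf]
    simp only [if_neg ha, map_zero]
  have h2 : ∀ G : MvPolynomial (Fin N) ℂ, G - aeval f G ∈
      Ideal.span ((X : Fin N → MvPolynomial (Fin N) ℂ) '' {a | ¬ q a}) := by
    intro G
    induction G using MvPolynomial.induction_on with
    | C a => simp
    | add p r hp hr =>
      have h3 : p + r - aeval f (p + r) = (p - aeval f p) + (r - aeval f r) := by
        rw [map_add]
        ring
      rw [h3]
      exact add_mem hp hr
    | mul_X p a hp =>
      have h3 : p * X a - aeval f (p * X a) = (p - aeval f p) * X a +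
          aeval f p * (X a - f a) := by
        rw [map_mul, aeval_X]
        ring
      rw [h3]
      refine add_mem (Ideal.mul_mem_right _ _ hp) (Ideal.mul_mem_left _ _ ?_)
      by_cases ha : q a
      · rw [hf]
        simp only [if_pos ha, sub_self]
        exact zero_mem _
      · rw [hf]
        simp only [if_neg ha, sub_zero]
        exact Ideal.subset_span ⟨a, ha, rfl⟩
  have h4 := h2 F
  rwa [h1, sub_zero] at h4

end

variable {k m : ℕ} {K L : Type} [Field K] [Field L]

/-- the pattern of the matrices: the change of coordinates preserves `P` -/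
def Pat (q : Fin (k + 1 + (m + 1)) → Prop) (U : Fin (k + 1) → Fin (m + 1) → K) : Prop :=
  ∀ i j, q (Fin.castAdd (m + 1) i) → ¬ q (Fin.natAdd (k + 1) j) → U i j = 0

theorem vanQ_shear {q : Fin (k + 1 + (m + 1)) → Prop} {U : Fin (k + 1) → Fin (m + 1) → K}
    (hU : Pat q U) {F : MvPolynomial (Fin (k + 1 + (m + 1))) K} (h : VanQ q F) :
    VanQ q (shear U F) := by
  have h1 : Ideal.map (aeval (shv U) : MvPolynomial (Fin (k + 1 + (m + 1))) K →ₐ[K]
      MvPolynomial (Fin (k + 1 + (m + 1))) K)
      (Ideal.span ((X : Fin (k + 1 + (m + 1)) → MvPolynomial (Fin (k + 1 + (m + 1))) K) ''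
        {a | ¬ q a})) ≤
      Ideal.span ((X : Fin (k + 1 + (m + 1)) → MvPolynomial (Fin (k + 1 + (m + 1))) K) ''
        {a | ¬ q a}) := by
    rw [Ideal.map_span, Ideal.span_le]
    rintro _ ⟨_, ⟨a, ha, rfl⟩, rfl⟩
    rw [SetLike.mem_coe, aeval_X]
    revert ha
    refine Fin.addCases (fun i ha => ?_) (fun j ha => ?_) a
    · rw [shv_left]
      exact Ideal.subset_span ⟨_, ha, rfl⟩
    · rw [shv_right]
      refine add_mem (Ideal.subset_span ⟨_, ha, rfl⟩) (sum_mem fun i _ => ?_)
      by_cases hi : q (Fin.castAdd (m + 1) i)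
      · rw [hU i j hi ha, C_0, zero_mul]
        exact zero_mem _
      · exact Ideal.mul_mem_left _ _ (Ideal.subset_span ⟨_, hi, rfl⟩)
  rw [shear_eq]
  exact h1 (Ideal.mem_map_of_mem _ h)

/-- the exponents of the monomials which vanish on `P` and on `W` -/
def Sq (q : Fin (k + 1 + (m + 1)) → Prop) (β : Fin (k + 1 + (m + 1)) →₀ ℕ) : Prop :=
  (∃ a, ¬ q a ∧ β a ≠ 0) ∧ ∃ j, β (Fin.natAdd (k + 1) j) ≠ 0

theorem coeff_of_not_sq {q : Fin (k + 1 + (m + 1)) → Prop}
    {F : MvPolynomial (Fin (k + 1 + (m + 1))) K} (hQ : VanQ q F) (hW : VanW F)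
    (β : Fin (k + 1 + (m + 1)) →₀ ℕ) (hβ : ¬ Sq q β) : coeff β F = 0 := by
  by_cases h1 : ∃ a, ¬ q a ∧ β a ≠ 0
  · refine vanW_coeff hW fun j => ?_
    by_contra hj
    exact hβ ⟨h1, j, hj⟩
  · refine hQ.coeff β fun a ha => ?_
    by_contra hq
    exact h1 ⟨a, hq, ha⟩

theorem card_split (q : Fin (k + 1 + (m + 1)) → Prop) : Nat.card {a // q a} =
    Nat.card {i : Fin (k + 1) // q (Fin.castAdd (m + 1) i)} +
      Nat.card {j : Fin (m + 1) // q (Fin.natAdd (k + 1) j)} := by
  classical
  rw [Nat.card_eq_fintype_card, Nat.card_eq_fintype_card, Nat.card_eq_fintype_card,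
    Fintype.card_subtype, Fintype.card_subtype, Fintype.card_subtype, Finset.card_filter,
    Finset.card_filter, Finset.card_filter, Fin.sum_univ_add]

theorem card_not {n : ℕ} (r : Fin n → Prop) : Nat.card {a // r a} + Nat.card {a // ¬ r a} = n := by
  classical
  rw [Nat.card_eq_fintype_card, Nat.card_eq_fintype_card, Fintype.card_subtype,
    Fintype.card_subtype, Finset.card_filter_add_card_filter_not, Finset.card_univ, Fintype.card_fin]

/-- an injective map which respects two properties -/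
theorem matching {a b : ℕ} (hab : a ≤ b) (p : Fin a → Prop) (r : Fin b → Prop)
    (h : Nat.card {i // p i} ≤ Nat.card {j // r j}) :
    ∃ σ : Fin a → Fin b, Function.Injective σ ∧ ∀ i, p i → r (σ i) := by
  classical
  let t : Fin a → Finset (Fin b) := fun i => Finset.univ.filter fun j => p i → r j
  have h1 := (Finset.all_card_le_biUnion_card_iff_exists_injective t).1 (by
    intro s
    by_cases hs : ∀ i ∈ s, p i
    · rcases s.eq_empty_or_nonempty with rfl | ⟨i0, hi0⟩
      · simp
      · have h2 : s.card ≤ Nat.card {i // p i} := by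
          rw [Nat.card_eq_fintype_card, Fintype.card_subtype]
          refine Finset.card_le_card fun i hi => ?_
          rw [Finset.mem_filter]
          exact ⟨Finset.mem_univ _, hs i hi⟩
        have h3 : Nat.card {j // r j} ≤ (s.biUnion t).card := by
          rw [Nat.card_eq_fintype_card, Fintype.card_subtype]
          refine Finset.card_le_card fun j hj => ?_
          rw [Finset.mem_filter] at hj
          rw [Finset.mem_biUnion]
          refine ⟨i0, hi0, ?_⟩
          simp only [t, Finset.mem_filter, Finset.mem_univ, true_and]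
          exact fun _ => hj.2
        omega
    · push Not at hs
      obtain ⟨i0, hi0, hp⟩ := hs
      have h2 : s.card ≤ a := by
        have := Finset.card_le_univ s
        rwa [Fintype.card_fin] at this
      have h3 : b ≤ (s.biUnion t).card := by
        have h4 : (Finset.univ : Finset (Fin b)) ⊆ s.biUnion t := by
          intro j _
          rw [Finset.mem_biUnion]
          refine ⟨i0, hi0, ?_⟩
          simp only [t, Finset.mem_filter, Finset.mem_univ, true_and]
          exact fun h5 => absurd h5 hp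
        have h5 := Finset.card_le_card h4
        rwa [Finset.card_univ, Fintype.card_fin] at h5
      omega)
  obtain ⟨σ, hσ, ht⟩ := h1
  refine ⟨σ, hσ, fun i hi => ?_⟩
  have h2 := ht i
  simp only [t, Finset.mem_filter, Finset.mem_univ, true_and] at h2
  exact h2 hi

theorem spf_homog (σ : Fin (k + 1) → Fin (m + 1)) (a b c : Fin (m + 1)) (K : Type) [Field K] :
    (spf σ a b c K).IsHomogeneous 3 := by
  unfold spf
  apply IsHomogeneous.add
  · apply IsHomogeneous.sum
    intro i _
    exact (isHomogeneous_X K _).mul ((isHomogeneous_X K _).pow 2)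
  · exact ((isHomogeneous_X K _).mul (isHomogeneous_X K _)).mul (isHomogeneous_X K _)

theorem spf_vanW (σ : Fin (k + 1) → Fin (m + 1)) (a b c : Fin (m + 1)) (K : Type) [Field K] :
    VanW (spf σ a b c K) := by
  unfold VanW spf
  simp [map_sum]

theorem spf_vanQ {q : Fin (k + 1 + (m + 1)) → Prop} {σ : Fin (k + 1) → Fin (m + 1)}
    (a : Fin (m + 1)) {b : Fin (m + 1)} (c : Fin (m + 1))
    (hσ : ∀ i, q (Fin.castAdd (m + 1) i) → ¬ q (Fin.natAdd (k + 1) (σ i)))
    (hb : ¬ q (Fin.natAdd (k + 1) b)) (K : Type) [Field K] : VanQ q (spf σ a b c K) := by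
  unfold VanQ spf
  refine add_mem (sum_mem fun i _ => ?_) ?_
  · by_cases hi : q (Fin.castAdd (m + 1) i)
    · exact Ideal.mul_mem_right _ _ (Ideal.subset_span ⟨_, hσ i hi, rfl⟩)
    · refine Ideal.mul_mem_left _ _ ?_
      rw [pow_two]
      exact Ideal.mul_mem_right _ _ (Ideal.subset_span ⟨_, hi, rfl⟩)
  · exact Ideal.mul_mem_right _ _ (Ideal.mul_mem_left _ _ (Ideal.subset_span ⟨_, hb, rfl⟩))

theorem map_spf (σ : Fin (k + 1) → Fin (m + 1)) (a b c : Fin (m + 1)) (f : K →+* L) :
    map f (spf σ a b c K) = spf σ a b c L := by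
  unfold spf
  simp [map_sum]

/-- the data of a special form -/
theorem exists_spf (q : Fin (k + 1 + (m + 1)) → Prop) (hkm : k ≤ m) (h3 : 3 ≤ k + m)
    (hq : 2 * Nat.card {a // q a} ≤ k + m + 2) (hex : k = m → ∃ j, ¬ q (Fin.natAdd (k + 1) j)) :
    ∃ (σ : Fin (k + 1) → Fin (m + 1)) (a b c : Fin (m + 1)), Function.Injective σ ∧
      (∀ i, q (Fin.castAdd (m + 1) i) → ¬ q (Fin.natAdd (k + 1) (σ i))) ∧
      ¬ q (Fin.natAdd (k + 1) b) ∧ Par σ a b c := by
  classical
  have h1 := card_split q
  have h2 : Nat.card {j : Fin (m + 1) // q (Fin.natAdd (k + 1) j)} +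
      Nat.card {j : Fin (m + 1) // ¬ q (Fin.natAdd (k + 1) j)} = m + 1 :=
    card_not (fun j : Fin (m + 1) => q (Fin.natAdd (k + 1) j))
  have h5 : Nat.card {i : Fin (k + 1) // q (Fin.castAdd (m + 1) i)} ≤
      Nat.card {j : Fin (m + 1) // ¬ q (Fin.natAdd (k + 1) j)} := by omega
  obtain ⟨σ, hσ, hσq⟩ := matching (Nat.succ_le_succ hkm)
    (fun i : Fin (k + 1) => q (Fin.castAdd (m + 1) i))
    (fun j : Fin (m + 1) => ¬ q (Fin.natAdd (k + 1) j)) h5
  have hf : ∃ j, ¬ q (Fin.natAdd (k + 1) j) := by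
    rcases Nat.lt_or_ge k m with hlt | hge
    · by_contra hcon
      push Not at hcon
      have h4 : Nat.card {j : Fin (m + 1) // ¬ q (Fin.natAdd (k + 1) j)} = 0 := by
        rw [Nat.card_eq_zero]
        left
        exact ⟨fun x => x.2 (hcon x.1)⟩
      omega
    · exact hex (le_antisymm hkm hge)
  obtain ⟨f, hf⟩ := hf
  rcases Nat.lt_or_ge k m with hlt | hge
  · obtain ⟨e, he⟩ : ∃ e, ∀ i, σ i ≠ e := by
      by_contra hcon
      push Not at hcon
      have h4 := Fintype.card_le_of_surjective σ hcon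
      rw [Fintype.card_fin, Fintype.card_fin] at h4
      omega
    exact ⟨σ, e, f, f, hσ, hσq, hf, par_one he⟩
  · have h4 : 1 < (Finset.univ.erase f).card := by
      rw [Finset.card_erase_of_mem (Finset.mem_univ _), Finset.card_univ, Fintype.card_fin]
      omega
    obtain ⟨a, ha, c, hc, hac⟩ := Finset.one_lt_card.1 h4
    exact ⟨σ, a, f, c, hσ, hσq, hf, par_two σ (Finset.ne_of_mem_erase ha) hac
      (Finset.ne_of_mem_erase hc).symm⟩

/-- **The generic cubic form which vanishes on `P` and on `W`.** -/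
theorem gen' (q : Fin (k + 1 + (m + 1)) → Prop) (hkm : k ≤ m) (h3 : 3 ≤ k + m)
    (hq : 2 * Nat.card {a // q a} ≤ k + m + 2) (hex : k = m → ∃ j, ¬ q (Fin.natAdd (k + 1) j))
    [CharZero K] {F : MvPolynomial (Fin (k + 1 + (m + 1))) K} (hF : F.IsHomogeneous 3)
    (hW : VanW F) (hQ : VanQ q F)
    (hind : AlgebraicIndependent ℚ
      (fun β : {β : Fin (k + 1 + (m + 1)) →₀ ℕ // β.degree = 3 ∧ Sq q β} => coeff β.1 F)) :
    ¬ Iso F := by
  intro hiso
  obtain ⟨σ, a, b, c, hσ, hσq, hb, hp⟩ := exists_spf q hkm h3 hq hex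
  obtain ⟨κ, _, _, hκ⟩ := spec' (Sq q) F hF hW (coeff_of_not_sq hQ hW) hind hiso
    (spf σ a b c ℚ) (spf_homog σ a b c ℚ)
    (coeff_of_not_sq (spf_vanQ a c hσq hb ℚ) (spf_vanW σ a b c ℚ))
  rw [map_spf] at hκ
  exact ani' hσ hp κ hκ

end

end Pool.Agent.U221.VG
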