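import Pool.Agent.U221.VG.Cht
import Pool.Agent.U221.VG.Atp
import Pool.Agent.U351.CH.Main
import Pool.Agent.R845.E3.All

/-! Very general cubic hypersurfaces containing a fixed linear subspace: no rational sections. -/

set_option autoImplicit false

namespace Pool.Agent.U221.VG

open MvPolynomial Pool.Agent.TH314.PD IntermediateField Module Pool.Agent.R845.E3
open Pool.Agent.Y201.C3 Pool.Agent.N150.CF Pool.Agent.R845.T2 Pool.Agent.U351.CH

noncomputable section

/-- the form vanishes on the linear subspace, in adapted coordinates -/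
theorem adapt2 {N P k m : ℕ} {F : MvPolynomial (Fin N) ℂ} (A : Fin N → Fin P → ℂ)
    (hA : ∀ a : Fin P → ℂ, eval (fun i => ∑ l, a l * A i l) F = 0)
    (σ : Fin (k + 1 + (m + 1)) ≃ Fin N) (U : Fin (k + 1) → Fin (m + 1) → ℂ)
    (hli : LinearIndependent ℂ (fun i : Fin (k + 1) => A (σ (Fin.castAdd (m + 1) i))))
    (hU : ∀ j l, A (σ (Fin.natAdd (k + 1) j)) l =
        ∑ i, U i j * A (σ (Fin.castAdd (m + 1) i)) l) :
      VanW (shear U (rename σ.symm F)) ∧
      ∀ (M : Type) [Field M] [Algebra ℂ M] (w : Fin P → M) (j : Fin (m + 1)),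
        tp U (fun i => ∑ l, w l * algebraMap ℂ M (A (σ i) l)) (Fin.natAdd (k + 1) j) = 0 := by
  classical
  set F1 : MvPolynomial (Fin (k + 1 + (m + 1))) ℂ := rename σ.symm F with hF1
  set F2 := shear U F1 with hF2
  -- `F2` vanishes on `W`
  have hsurj : ∀ u : Fin (k + 1) → ℂ, ∃ a : Fin P → ℂ,
      ∀ i, ∑ l, a l * A (σ (Fin.castAdd (m + 1) i)) l = u i := by
    intro u
    have h1 : Function.Surjective (Matrix.mulVecLin (Matrix.of fun i : Fin (k + 1) =>
        A (σ (Fin.castAdd (m + 1) i)))) := by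
      rw [← LinearMap.range_eq_top]
      have h2 := LinearIndependent.rank_matrix (M := Matrix.of fun i : Fin (k + 1) =>
        A (σ (Fin.castAdd (m + 1) i))) hli
      apply Submodule.eq_top_of_finrank_eq
      rw [Module.finrank_fin_fun]
      rw [Fintype.card_fin] at h2
      exact h2
    obtain ⟨a, ha⟩ := h1 u
    refine ⟨a, fun i => ?_⟩
    rw [← ha]
    simp only [Matrix.mulVecLin_apply, Matrix.mulVec, dotProduct, Matrix.of_apply]
    exact Finset.sum_congr rfl fun l _ => mul_comm _ _
  refine ⟨?_, ?_⟩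
  · unfold VanW
    apply MvPolynomial.funext
    intro u
    rw [map_zero]
    obtain ⟨a, ha⟩ := hsurj u
    have h1 : eval u (aeval (Fin.append (X : Fin (k + 1) → MvPolynomial (Fin (k + 1)) ℂ) 0) F2) =
        aeval (Fin.append u (0 : Fin (m + 1) → ℂ)) F2 := by
      have h2 := comp_aeval_apply (f := Fin.append (X : Fin (k + 1) →
        MvPolynomial (Fin (k + 1)) ℂ) 0) (aeval u) F2
      rw [aeval_eq_eval] at h2
      rw [h2]
      congr 2
      funext i
      refine Fin.addCases (fun j => ?_) (fun j => ?_) i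
      · rw [Fin.append_left, Fin.append_left, eval_X]
      · rw [Fin.append_right, Fin.append_right, Pi.zero_apply, Pi.zero_apply, map_zero]
    rw [h1, hF2, aeval_shear, hF1, aeval_rename]
    have h3 : ((Fin.append (fun i => Fin.append u (0 : Fin (m + 1) → ℂ) (Fin.castAdd (m + 1) i))
        (fun j => Fin.append u (0 : Fin (m + 1) → ℂ) (Fin.natAdd (k + 1) j) +
          ∑ i, algebraMap ℂ ℂ (U i j) * Fin.append u (0 : Fin (m + 1) → ℂ)
            (Fin.castAdd (m + 1) i))) ∘ σ.symm) = fun i => ∑ l, a l * A i l := by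
      funext i
      obtain ⟨i', rfl⟩ := σ.surjective i
      simp only [Function.comp_apply, Equiv.symm_apply_apply]
      refine Fin.addCases (fun j => ?_) (fun j => ?_) i'
      · rw [Fin.append_left, Fin.append_left, ha]
      · rw [Fin.append_right, Fin.append_right, Pi.zero_apply, zero_add]
        simp only [Fin.append_left, Algebra.algebraMap_self, RingHom.id_apply, hU]
        simp only [Finset.mul_sum]
        rw [Finset.sum_comm]
        refine Finset.sum_congr rfl fun i _ => ?_
        rw [← ha, Finset.mul_sum]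
        refine Finset.sum_congr rfl fun l _ => ?_
        ring
    rw [h3, aeval_eq_eval]
    exact hA a
  · intro M _ _ w j
    unfold tp
    rw [Fin.append_right, sub_eq_zero]
    simp only [hU, map_sum, map_mul, Finset.mul_sum]
    rw [Finset.sum_comm]
    refine Finset.sum_congr rfl fun i _ => Finset.sum_congr rfl fun l _ => ?_
    ring


/-- a family of rational curves whose projections from a linear subspace are lines: in the given
adapted coordinates the generic fibre of the projection has a rational point -/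
theorem sections_iso2 {N P k m : ℕ} {F : MvPolynomial (Fin N) ℂ}
    (hF : F.IsHomogeneous 3) (hsm : Sm F) (A : Fin N → Fin P → ℂ)
    (σ : Fin (k + 1 + (m + 1)) ≃ Fin N) (U : Fin (k + 1) → Fin (m + 1) → ℂ)
    (hW : VanW (shear U (rename σ.symm F)))
    (htp : ∀ (M : Type) [Field M] [Algebra ℂ M] (w : Fin P → M) (j : Fin (m + 1)),
        tp U (fun i => ∑ l, w l * algebraMap ℂ M (A (σ i) l)) (Fin.natAdd (k + 1) j) = 0)
    {M : Type} [Field M] [Algebra ℂ M] (L : IntermediateField ℂ M) (t : M)
    (ht : Transcendental L t) (hM : adjoin L {t} = ⊤) (x : Fin N → M) (hG : Gp F x)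
    (hodd : Odd (finrank (ratioField x) M)) (s : M) (w : Fin P → M) (β γ : Fin N → M)
    (hβ : ∀ i, β i ∈ L) (hγ : ∀ i, γ i ∈ L)
    (hx : ∀ i, x i = s * (t * β i + γ i) + ∑ l, w l * algebraMap ℂ M (A i l)) :
    Iso (shear U (rename σ.symm F)) := by
  classical
  have hF1h : (rename σ.symm F).IsHomogeneous 3 := hF.rename_isHomogeneous
  set x1 : Fin (k + 1 + (m + 1)) → M := fun i => x (σ i) with hx1
  have hx1G : Gp (rename σ.symm F) x1 := by
    have h1 := gp_rename σ.symm hG
    simpa only [Equiv.symm_symm] using h1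
  have hx1r : ratioField x1 = ratioField x := by
    have h1 := ratioField_perm σ.symm x
    simpa only [Equiv.symm_symm] using h1
  have hx2G : Gp (shear U (rename σ.symm F)) (tp U x1) := gp_tp U hx1G
  have hx1n : ∀ i, x1 i ≠ 0 := coord_ne_zero hF1h (by norm_num) x1 hx1G.2
  have hx2n : ∀ i, tp U x1 i ≠ 0 := coord_ne_zero (shear_hom hF1h U) (by norm_num) _ hx2G.2
  have hx2r : ratioField (tp U x1) = ratioField x1 :=
    ratioField_tp U x1 ⟨_, hx1n (Fin.castAdd (m + 1) 0)⟩ ⟨_, hx2n (Fin.castAdd (m + 1) 0)⟩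
  refine sec_iso spr desc (shear_hom hF1h U) (sm_shear (sm_rename σ.symm hsm) U) hW L t ht hM
    (tp U x1) hx2G (by rw [hx2r, hx1r]; exact hodd) s
    (fun j => tp U (fun i => β (σ i)) (Fin.natAdd (k + 1) j))
    (fun j => tp U (fun i => γ (σ i)) (Fin.natAdd (k + 1) j))
    (fun j => tp_mem U L _ (fun i => hβ _) _) (fun j => tp_mem U L _ (fun i => hγ _) _)
    fun j => ?_
  have h1 : x1 = fun i => s * t * β (σ i) + s * γ (σ i) +
      ∑ l, w l * algebraMap ℂ M (A (σ i) l) := by
    funext i
    rw [hx1]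
    simp only
    rw [hx]
    ring
  rw [h1, tp_lin]
  simp only
  rw [htp M w j]
  ring


theorem ind_rename' {N N' : ℕ} (σ : Fin N' ≃ Fin N) (q : Fin N → Prop)
    {F : MvPolynomial (Fin N) ℂ}
    (h : AlgebraicIndependent ℚ (fun β : MQ q => coeff β.1 F)) :
    AlgebraicIndependent ℚ
      (fun β : MQ (fun a => q (σ a)) => coeff β.1 (rename σ.symm F)) := by
  have hmap : ∀ β : Fin N' →₀ ℕ, Finsupp.mapDomain σ.symm (Finsupp.mapDomain σ β) = β := by
    intro β
    rw [← Finsupp.mapDomain_comp]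
    have : (σ.symm ∘ σ : Fin N' → Fin N') = id := by
      funext i
      simp
    rw [this, Finsupp.mapDomain_id]
  let e : MQ (fun a => q (σ a)) → MQ q := fun β =>
    ⟨Finsupp.mapDomain σ β.1, by rw [Finsupp.degree_mapDomain]; exact β.2.1, by
      obtain ⟨a, ha, h1⟩ := β.2.2
      exact ⟨σ a, ha, by rwa [Finsupp.mapDomain_apply σ.injective]⟩⟩
  have he : Function.Injective e := by
    intro β β' h1
    have h2 := congrArg (fun β : MQ q => Finsupp.mapDomain σ.symm β.1) h1
    simp only [e] at h2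
    rw [hmap, hmap] at h2
    exact Subtype.ext h2
  have h3 := h.comp e he
  convert h3 using 1
  funext β
  simp only [Function.comp_apply, e]
  conv_lhs => rw [← hmap β.1]
  rw [coeff_rename_mapDomain _ σ.symm.injective]

/-- **No rational sections.** -/
theorem no_sec {n : ℕ} (hn : 3 ≤ n) (Q : Fin (n + 2) → Prop)
    (hQc : 2 * Nat.card {a // Q a} ≤ n + 2) {F : MvPolynomial (Fin (n + 2)) ℂ}
    (hF : F.IsHomogeneous 3) (hsm : Sm F) (hQ : VanQ Q F)
    (hind : AlgebraicIndependent ℚ (fun β : MQ Q => coeff β.1 F)) {k m : ℕ} (hkm : k + m = n)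
    (hk : 1 ≤ k) (v : Fin (k + 1) → Fin (n + 2) → ℂ) (hv : Lin F v) : ¬ Sec m F v := by
  classical
  intro hsec
  obtain ⟨σ, U, hli, hU, hpat⟩ := chart (N := n + 2) (m := m) (by omega) Q v hv.1
  have hN : n + 2 = k + 1 + (m + 1) := by omega
  have key : ∀ (N : ℕ) (hN : N = k + 1 + (m + 1)) (F : MvPolynomial (Fin N) ℂ)
      (v : Fin (k + 1) → Fin N → ℂ), F.IsHomogeneous 3 → Sm F → Lin F v → Sec m F v →
      Fib F v 1 := by
    rintro N rfl F v hF hsm hv h
    exact fib_of_sec hk hF hsm hv h
  obtain ⟨hW, htp⟩ := adapt2 (fun i l => v l i) hv.2 σ U hli hU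
  obtain ⟨M, _, _, L, t, x, s, w, β, γ, ht, htop, hG, hd, hβ, hγ, hx⟩ :=
    (key _ hN F v hF hsm hv hsec).lr
  have hiso := sections_iso2 hF hsm (fun i l => v l i) σ U hW htp L t ht htop x hG
    (by rw [hd]; exact odd_one) s w β γ hβ hγ hx
  have hle := le_of_smooth (Pool.Agent.R845.E3.At1.shear_hom U _ hF.rename_isHomogeneous)
    (Pool.Agent.R845.E3.At1.sm_shear U _ (sm_rename σ.symm hsm)) hW
  have hcard : Nat.card {a // Q (σ a)} = Nat.card {a // Q a} :=
    Nat.card_congr (σ.subtypeEquiv fun a => Iff.rfl)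
  exact at' curve (trans gfi evn spr) trdb (fun a => Q (σ a)) hle (by omega)
    (by rw [hcard]; omega) hF.rename_isHomogeneous (sm_rename σ.symm hsm) (hQ.rename σ)
    (ind_rename' σ Q hind) U hpat hW hiso

end

end Pool.Agent.U221.VG
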