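import Pool.Agent.R845.E3.Spec
import Pool.Agent.R845.E3.Ani

/-! Specialization of a solution for forms with prescribed zero coefficients (adapted from
`Pool.Agent.R845.E3.Spec`), and an anisotropic special form. -/

set_option autoImplicit false

namespace Pool.Agent.U221.VG

open MvPolynomial Pool.Agent.R845.E3

noncomputable section

/-- specialization of a solution; the form may have coefficients zero outside `S` -/
theorem spec' {k m : ℕ} (S : (Fin (k + 1 + (m + 1)) →₀ ℕ) → Prop) {K : Type} [Field K] [CharZero K]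
    (F : MvPolynomial (Fin (k + 1 + (m + 1))) K) (hF : F.IsHomogeneous 3) (hW : VanW F)
    (hS : ∀ β, ¬ S β → coeff β F = 0)
    (hind : AlgebraicIndependent ℚ
      (fun β : {β : Fin (k + 1 + (m + 1)) →₀ ℕ // β.degree = 3 ∧ S β} => coeff β.1 F))
    (hiso : Iso F) (F0 : MvPolynomial (Fin (k + 1 + (m + 1))) ℚ) (hF0 : F0.IsHomogeneous 3)
    (hS0 : ∀ β, ¬ S β → coeff β F0 = 0) :
    ∃ (κ : Type) (_ : Field κ) (_ : Algebra ℚ κ), Iso (map (algebraMap ℚ κ) F0) := by
  classical
  obtain ⟨V, ψ, hψ, hψ0⟩ := exists_place
    (fun β : {β : Fin (k + 1 + (m + 1)) →₀ ℕ // β.degree = 3 ∧ S β} => coeff β.1 F) hind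
    (fun β => coeff β.1 F0)
  let κ := IsLocalRing.ResidueField V
  let r : V →+* κ := IsLocalRing.residue V
  let _ : Algebra ℚ κ := (r.comp (ψ.comp C)).toAlgebra
  refine ⟨κ, inferInstance, inferInstance, ?_⟩
  have hex : ∀ β, ∃ v : V, (v : K) = coeff β F ∧ r v = algebraMap ℚ κ (coeff β F0) := by
    intro β
    by_cases h3 : β.degree = 3
    · by_cases hy : S β
      · refine ⟨ψ (X ⟨β, h3, hy⟩), ?_, ?_⟩
        · rw [hψ, aeval_X]
        · have h1 := hψ0 (X ⟨β, h3, hy⟩)
          rw [eval_X] at h1
          exact h1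
      · refine ⟨0, ?_, ?_⟩
        · rw [hS β hy]; rfl
        · rw [hS0 β hy, map_zero, map_zero]
    · refine ⟨0, ?_, ?_⟩
      · rw [hF.coeff_eq_zero h3]; rfl
      · rw [hF0.coeff_eq_zero h3, map_zero, map_zero]
  obtain ⟨FV, hFV⟩ : ∃ FV : MvPolynomial (Fin (k + 1 + (m + 1))) V, map V.subtype FV = F := by
    have h1 : F ∈ Set.range (MvPolynomial.map V.subtype) := by
      rw [mem_range_map_iff_coeffs_subset]
      intro c hc
      rw [Finset.mem_coe, mem_coeffs_iff] at hc
      obtain ⟨β, -, rfl⟩ := hc
      obtain ⟨v, hv, -⟩ := hex β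
      exact ⟨v, hv⟩
    exact h1
  have hFr : map r FV = map (algebraMap ℚ κ) F0 := by
    ext β
    rw [coeff_map, coeff_map]
    obtain ⟨v, hv, hv2⟩ := hex β
    have h1 : coeff β FV = v := by
      apply Subtype.ext
      rw [hv, ← hFV, coeff_map]
      rfl
    rw [h1, hv2]
  rw [← hFr]
  have hinj : Function.Injective (map V.subtype : MvPolynomial (Fin m) V → MvPolynomial (Fin m) K) :=
    map_injective _ Subtype.val_injective
  have hu0 : ∀ c' : Fin (k + 1) → MvPolynomial (Fin m) V,
      aeval (Fin.append c' (0 : Fin (m + 1) → MvPolynomial (Fin m) V)) FV = 0 := by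
    intro c'
    apply hinj
    rw [map_zero, map_aeval', hFV, append_mapS]
    have e : (fun j => map V.subtype ((0 : Fin (m + 1) → MvPolynomial (Fin m) V) j)) =
        (0 : Fin (m + 1) → MvPolynomial (Fin m) K) := by
      funext j; simp
    rw [e]
    exact vanW_aevalS hW _
  have hder : ∀ (θ : V →+* κ) (c' : Fin (k + 1) → MvPolynomial (Fin m) V) (i : Fin (k + 1 + (m + 1))),
      map θ (aeval (Fin.append c' (0 : Fin (m + 1) → MvPolynomial (Fin m) V)) (pderiv i FV)) =
        aeval (Fin.append (fun i => map θ (c' i)) (0 : Fin (m + 1) → MvPolynomial (Fin m) κ))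
          (pderiv i (map θ FV)) := by
    intro θ c' i
    have e : (fun j => map θ ((0 : Fin (m + 1) → MvPolynomial (Fin m) V) j)) =
        (0 : Fin (m + 1) → MvPolynomial (Fin m) κ) := by
      funext j; simp
    rw [map_aeval', append_mapS, pderiv_map, e]
  have hderK : ∀ (c' : Fin (k + 1) → MvPolynomial (Fin m) V) (i : Fin (k + 1 + (m + 1))),
      map V.subtype (aeval (Fin.append c' (0 : Fin (m + 1) → MvPolynomial (Fin m) V)) (pderiv i FV)) =
        aeval (Fin.append (fun i => map V.subtype (c' i)) (0 : Fin (m + 1) → MvPolynomial (Fin m) K))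
          (pderiv i F) := by
    intro c' i
    have e : (fun j => map V.subtype ((0 : Fin (m + 1) → MvPolynomial (Fin m) V) j)) =
        (0 : Fin (m + 1) → MvPolynomial (Fin m) K) := by
      funext j; simp
    rw [map_aeval', append_mapS, ← pderiv_map, hFV, e]
  -- reduction of the second alternative
  have hred : ∀ c' : Fin (k + 1) → MvPolynomial (Fin m) V, ∀ T : MvPolynomial (Fin m) V, map r T = 0 →
      ∑ j, yw V m j * aeval (Fin.append c' (0 : Fin (m + 1) → MvPolynomial (Fin m) V))
        (pderiv (Fin.natAdd (k + 1) j) FV) + T = 0 →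
      ∑ j, yv κ m j * aeval (Fin.append (fun i => map r (c' i)) 0)
        (pderiv (Fin.natAdd (k + 1) j) (map r FV)) = 0 := by
    intro c' T hT h1
    have h2 := congrArg (map r) h1
    rw [map_zero, map_add, hT, add_zero, map_sum] at h2
    rw [← h2]
    refine Finset.sum_congr rfl fun j _ => ?_
    rw [map_mul, map_yw, hder, yv_eq_yw]
  obtain ⟨c, l, hcl⟩ := hiso
  rcases hcl with ⟨hl, hz⟩ | ⟨hc, hz⟩
  · -- first alternative
    obtain ⟨s, g', hs0, hg', i0, hi0⟩ := exists_scale V
      (fun o : Option (Fin (k + 1)) => o.elim l c) ⟨none, hl⟩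
    obtain ⟨l', hl'⟩ : ∃ l', l' = g' none := ⟨_, rfl⟩
    obtain ⟨c', hc'⟩ : ∃ c' : Fin (k + 1) → MvPolynomial (Fin m) V, c' = fun i => g' (some i) := ⟨_, rfl⟩
    have hls : l = C s * map V.subtype l' := by rw [hl']; exact hg' none
    have hcs : ∀ i, c i = C s * map V.subtype (c' i) := by intro i; rw [hc']; exact hg' (some i)
    have hCs : (C s : MvPolynomial (Fin m) K) ≠ 0 := by rwa [Ne, C_eq_zero]
    have hA : aeval (Fin.append c' (fun j => l' * yw V m j)) FV = 0 := by
      apply hinj
      rw [map_zero, map_aeval', hFV, append_mapS]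
      have e1 : (Fin.append c (fun j => l * yv K m j)) = fun i => C s *
          Fin.append (fun i => map V.subtype (c' i)) (fun j => map V.subtype (l' * yw V m j)) i := by
        funext i
        refine Fin.addCases (fun i => ?_) (fun j => ?_) i
        · rw [Fin.append_left, Fin.append_left, hcs]
        · rw [Fin.append_right, Fin.append_right, hls, map_mul, map_yw, mul_assoc]
          rfl
      rw [e1, aeval_scale hF] at hz
      exact (mul_eq_zero.1 hz).resolve_left (pow_ne_zero 3 hCs)
    refine ⟨fun i => map r (c' i), map r l', ?_⟩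
    by_cases hlb : map r l' = 0
    · right
      constructor
      · intro h0
        rcases i0 with _ | i
        · rw [← hl'] at hi0
          exact hi0 hlb
        · apply hi0
          have := congrFun h0 i
          rw [hc'] at this
          exact this
      · obtain ⟨T, hT⟩ := taylor2 FV (Fin.append c' (0 : Fin (m + 1) → MvPolynomial (Fin m) V))
          (Fin.append (0 : Fin (k + 1) → MvPolynomial (Fin m) V) (yw V m)) l'
        have e1 : (fun i => Fin.append c' (0 : Fin (m + 1) → MvPolynomial (Fin m) V) i +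
            l' * Fin.append (0 : Fin (k + 1) → MvPolynomial (Fin m) V) (yw V m) i) =
            Fin.append c' (fun j => l' * yw V m j) := by
          funext i
          refine Fin.addCases (fun i => ?_) (fun j => ?_) i <;> simp
        rw [e1, hA, hu0, zero_add, sum_append] at hT
        have hl'0 : l' ≠ 0 := by
          intro h0
          apply hl
          rw [hls, h0, map_zero, mul_zero]
        have h2 : l' * (∑ j, yw V m j * aeval (Fin.append c' (0 : Fin (m + 1) → MvPolynomial (Fin m) V))
            (pderiv (Fin.natAdd (k + 1) j) FV) + l' * T) = 0 := by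
          rw [hT]
          ring
        have h3 := (mul_eq_zero.1 h2).resolve_left hl'0
        exact hred c' (l' * T) (by rw [map_mul, hlb, zero_mul]) h3
    · left
      refine ⟨hlb, ?_⟩
      have h2 := congrArg (map r) hA
      have e2 : (fun j => map r (l' * yw V m j)) = fun j => map r l' * yv κ m j := by
        funext j
        rw [map_mul, map_yw]
        rfl
      rw [map_zero, map_aeval', append_mapS, e2] at h2
      exact h2
  · -- second alternative
    obtain ⟨s, c', hs0, hg', i0, hi0⟩ := exists_scale V c (by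
      by_contra hcon
      push Not at hcon
      exact hc (funext hcon))
    have hCs : (C s : MvPolynomial (Fin m) K) ≠ 0 := by rwa [Ne, C_eq_zero]
    refine ⟨fun i => map r (c' i), 0, Or.inr ⟨?_, ?_⟩⟩
    · intro h0
      exact hi0 (congrFun h0 i0)
    · apply hred c' 0 (map_zero _)
      rw [add_zero]
      apply hinj
      rw [map_zero, map_sum]
      have e1 : (Fin.append c (0 : Fin (m + 1) → MvPolynomial (Fin m) K)) = fun i => C s *
          Fin.append (fun i => map V.subtype (c' i)) (0 : Fin (m + 1) → MvPolynomial (Fin m) K) i := by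
        funext i
        refine Fin.addCases (fun i => ?_) (fun j => ?_) i
        · rw [Fin.append_left, Fin.append_left, hg']
        · simp
      have h2 : C s ^ 2 * ∑ j, map V.subtype (yw V m j *
          aeval (Fin.append c' (0 : Fin (m + 1) → MvPolynomial (Fin m) V))
            (pderiv (Fin.natAdd (k + 1) j) FV)) = 0 := by
        rw [← hz, Finset.mul_sum]
        refine Finset.sum_congr rfl fun j _ => ?_
        rw [map_mul, map_yw, hderK, e1, aeval_scale (hF.pderiv)]
        rw [yv_eq_yw]
        ring
      exact (mul_eq_zero.1 h2).resolve_left (pow_ne_zero 2 hCs)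


/-- the special cubic form `∑_i y_{σ i} u_i ^ 2 + y_a y_b y_c` -/
def spf {k m : ℕ} (σ : Fin (k + 1) → Fin (m + 1)) (a b c : Fin (m + 1)) (K : Type) [Field K] :
    MvPolynomial (Fin (k + 1 + (m + 1))) K :=
  ∑ i : Fin (k + 1), X (Fin.natAdd (k + 1) (σ i)) * X (Fin.castAdd (m + 1) i) ^ 2 +
    X (Fin.natAdd (k + 1) a) * X (Fin.natAdd (k + 1) b) * X (Fin.natAdd (k + 1) c)

variable {k m : ℕ}

/-- the exponents of the special form are independent modulo two -/
def Par (σ : Fin (k + 1) → Fin (m + 1)) (a b c : Fin (m + 1)) : Prop :=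
  ∀ i d e, ye m (σ i) + 2 • d ≠ (ye m a + ye m b + ye m c) + 2 • e

/-- no nontrivial solution -/
theorem no_zero' {σ : Fin (k + 1) → Fin (m + 1)} (hσ : Function.Injective σ)
    {a b c : Fin (m + 1)} (hp : Par σ a b c) (K : Type) [Field K]
    (z : Fin (k + 1) → MvPolynomial (Fin m) K) (l : MvPolynomial (Fin m) K)
    (hz : ∑ i : Fin (k + 1), yv K m (σ i) * z i ^ 2 +
      yv K m a * yv K m b * yv K m c * l ^ 2 = 0) : (∀ i, z i = 0) ∧ l = 0 := by
  have key := sum_sq_zero (ι := Fin (k + 1 + 1)) (K := K)
    (Fin.snoc (fun i => ye m (σ i)) (ye m a + ye m b + ye m c)) (fun i j hij d e => by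
      refine Fin.lastCases (fun h => ?_) (fun i h => ?_) i hij
      · revert h
        refine Fin.lastCases (fun h => absurd rfl h) (fun j h => ?_) j
        rw [Fin.snoc_castSucc, Fin.snoc_last]
        exact (hp j e d).symm
      · revert h
        refine Fin.lastCases (fun h => ?_) (fun j h => ?_) j
        · rw [Fin.snoc_castSucc, Fin.snoc_last]
          exact hp i d e
        · rw [Fin.snoc_castSucc, Fin.snoc_castSucc]
          exact ye_parity m _ _ (fun h2 => h (congrArg Fin.castSucc (hσ h2))) d e)
    (Fin.snoc z l) (by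
      rw [Fin.sum_univ_castSucc]
      simp only [Fin.snoc_castSucc, Fin.snoc_last]
      rw [← hz]
      congr 1
      · refine Finset.sum_congr rfl fun i _ => ?_
        rw [yv_eq]
      · rw [yv_eq, yv_eq, yv_eq, monomial_mul, monomial_mul, one_mul, one_mul])
  refine ⟨fun i => ?_, ?_⟩
  · have := key i.castSucc
    rwa [Fin.snoc_castSucc] at this
  · have := key (Fin.last _)
    rwa [Fin.snoc_last] at this

theorem ani' {σ : Fin (k + 1) → Fin (m + 1)} (hσ : Function.Injective σ)
    {a b c : Fin (m + 1)} (hp : Par σ a b c) (K : Type) [Field K] :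
    ¬ Iso (spf σ a b c K) := by
  classical
  intro hiso
  obtain ⟨z, l, hcl⟩ := hiso
  rcases hcl with ⟨hl, hz⟩ | ⟨hc, hz⟩
  · unfold spf at hz
    simp only [map_add, map_sum, map_mul, map_pow, aeval_X, Fin.append_left, Fin.append_right] at hz
    have h1 : l * (∑ i : Fin (k + 1), yv K m (σ i) * z i ^ 2 +
      yv K m a * yv K m b * yv K m c * l ^ 2) = 0 := by
      rw [← hz, mul_add, Finset.mul_sum]
      congr 1
      · refine Finset.sum_congr rfl fun i _ => ?_
        ring
      · ring
    have h2 := (mul_eq_zero.1 h1).resolve_left hl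
    exact hl (no_zero' hσ hp K z l h2).2
  · apply hc
    have h0 : ∀ j : Fin (m + 1), aeval (Fin.append z (0 : Fin (m + 1) → MvPolynomial (Fin m) K))
        (pderiv (Fin.natAdd (k + 1) j) (spf σ a b c K)) =
        ∑ i : Fin (k + 1), if σ i = j then z i ^ 2 else 0 := by
      intro j
      unfold spf
      rw [map_add, map_sum, map_add, map_sum]
      have e1 : aeval (Fin.append z (0 : Fin (m + 1) → MvPolynomial (Fin m) K))
          (pderiv (Fin.natAdd (k + 1) j) (X (Fin.natAdd (k + 1) a) * X (Fin.natAdd (k + 1) b) *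
            X (Fin.natAdd (k + 1) c) :
              MvPolynomial (Fin (k + 1 + (m + 1))) K)) = 0 := by
        rw [Derivation.leibniz, Derivation.leibniz]
        simp
      rw [e1, add_zero]
      refine Finset.sum_congr rfl fun i _ => ?_
      rw [Derivation.leibniz, Derivation.leibniz_pow, pderiv_X, pderiv_X]
      have hne : Fin.castAdd (m + 1) i ≠ Fin.natAdd (k + 1) j := by
        intro h2
        have := congrArg Fin.val h2
        simp at this
        omega
      rw [Pi.single_eq_of_ne hne]
      by_cases hij : σ i = j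
      · rw [if_pos hij, hij, Pi.single_eq_same]
        simp
      · rw [if_neg hij, Pi.single_eq_of_ne]
        · simp
        · intro h2
          apply hij
          have := congrArg Fin.val h2
          simp only [Fin.val_natAdd] at this
          apply Fin.ext
          omega
    have h1 : ∑ i : Fin (k + 1), yv K m (σ i) * z i ^ 2 +
        yv K m a * yv K m b * yv K m c * (0 : MvPolynomial (Fin m) K) ^ 2 = 0 := by
      rw [zero_pow two_ne_zero, mul_zero, add_zero, ← hz]
      simp_rw [h0, Finset.mul_sum]
      rw [Finset.sum_comm]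
      refine Finset.sum_congr rfl fun i _ => ?_
      simp
    funext i
    exact (no_zero' hσ hp K z 0 h1).1 i

/-- parity, first case -/
theorem par_one {σ : Fin (k + 1) → Fin (m + 1)} {e f : Fin (m + 1)} (he : ∀ i, σ i ≠ e) :
    Par σ e f f := by
  intro i d e' h
  refine ye_parity m (σ i) e (he i) d (ye m f + e') ?_
  rw [h]
  rw [smul_add, two_smul ℕ (ye m f)]
  abel

/-- parity, second case -/
theorem par_two (σ : Fin (k + 1) → Fin (m + 1)) {a b c : Fin (m + 1)} (hab : a ≠ b)
    (hac : a ≠ c) (hbc : b ≠ c) : Par σ a b c := by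
  intro i d e h
  -- the parity of the coordinates of `ye`
  have hy : ∀ (j : Fin (m + 1)) (s : Fin m), ye m j s = if j = s.succ then 1 else 0 := by
    intro j s
    unfold ye
    refine Fin.cases ?_ (fun j => ?_) j
    · simp [(Fin.succ_ne_zero s).symm]
    · simp [Finsupp.single_apply]
  have h1 : ∀ s : Fin m, (if σ i = s.succ then 1 else 0) % 2 =
      ((if a = s.succ then 1 else 0) + (if b = s.succ then 1 else 0) +
        (if c = s.succ then 1 else 0)) % 2 := by
    intro s
    have h2 := DFunLike.congr_fun h s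
    simp only [Finsupp.add_apply, Finsupp.smul_apply, smul_eq_mul, hy] at h2
    omega
  -- two of `a, b, c` are different from zero
  have key : ∀ s t : Fin m, s ≠ t → ((if a = s.succ then 1 else 0) +
      (if b = s.succ then 1 else 0) + (if c = s.succ then 1 else 0)) % 2 = 1 →
      ((if a = t.succ then 1 else 0) + (if b = t.succ then 1 else 0) +
        (if c = t.succ then 1 else 0)) % 2 = 1 → False := by
    intro s t hst h2 h3
    rw [← h1] at h2 h3
    have h4 : σ i = s.succ := by
      by_contra h4
      rw [if_neg h4] at h2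
      omega
    have h5 : σ i = t.succ := by
      by_contra h5
      rw [if_neg h5] at h3
      omega
    exact hst (Fin.succ_injective _ (h4.symm.trans h5))
  have hz : ∀ x : Fin (m + 1), x = 0 ∨ ∃ s : Fin m, x = s.succ := by
    intro x
    refine Fin.cases (Or.inl rfl) (fun s => Or.inr ⟨s, rfl⟩) x
  have hval : ∀ x y z : Fin (m + 1), x ≠ y → x ≠ z → ((if x = x then 1 else 0) +
      (if y = x then 1 else 0) + (if z = x then 1 else 0)) % 2 = 1 := by
    intro x y z h2 h3
    rw [if_pos rfl, if_neg (Ne.symm h2), if_neg (Ne.symm h3)]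
  rcases hz a with ha | ⟨s, ha⟩
  · rcases hz b with hb | ⟨t, hb⟩
    · exact hab (ha.trans hb.symm)
    · rcases hz c with hc | ⟨u, hc⟩
      · exact hac (ha.trans hc.symm)
      · refine key t u (fun h2 => hbc (by rw [hb, hc, h2])) ?_ ?_
        · rw [← hb, if_neg hab, if_pos rfl, if_neg (Ne.symm hbc)]
        · rw [← hc, if_neg hac, if_neg hbc, if_pos rfl]
  · rcases hz b with hb | ⟨t, hb⟩
    · rcases hz c with hc | ⟨u, hc⟩
      · exact hbc (hb.trans hc.symm)
      · refine key s u (fun h2 => hac (by rw [ha, hc, h2])) ?_ ?_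
        · rw [← ha, if_pos rfl, if_neg (Ne.symm hab), if_neg (Ne.symm hac)]
        · rw [← hc, if_neg hac, if_neg hbc, if_pos rfl]
    · refine key s t (fun h2 => hab (by rw [ha, hb, h2])) ?_ ?_
      · rw [← ha, if_pos rfl, if_neg (Ne.symm hab), if_neg (Ne.symm hac)]
      · rw [← hb, if_neg hab, if_pos rfl, if_neg (Ne.symm hbc)]

end

end Pool.Agent.U221.VG
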