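import Pool.Agent.U221.VG.Def
import Pool.Agent.R845.E3.Trda

/-! Counting of transcendence degrees for linear subspaces of a cubic hypersurface which contains a
fixed linear subspace `P` (adapted from `Pool.Agent.R845.E3.Trda`). -/

set_option autoImplicit false

namespace Pool.Agent.U221.VG

open Set MvPolynomial Pool.Agent.R845.E3 Trd

variable {k m : ℕ}

/-- the positions of the entries of the matrices -/
abbrev PT (q : Fin (k + 1 + (m + 1)) → Prop) : Type :=
  {τ : Fin (k + 1) × Fin (m + 1) //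
    ¬ (q (Fin.castAdd (m + 1) τ.1) ∧ ¬ q (Fin.natAdd (k + 1) τ.2))}

/-- the cubic monomials in `u` which do not vanish identically on `W` but on `P` -/
abbrev EQ (q : Fin (k + 1 + (m + 1)) → Prop) : Type :=
  {γ : Fin (k + 1) →₀ ℕ // γ.degree = 3 ∧ ∃ i, ¬ q (Fin.castAdd (m + 1) i) ∧ γ i ≠ 0}

/-- the cubic monomials which vanish on `P` -/
abbrev MQ {N : ℕ} (q : Fin N → Prop) : Type :=
  {β : Fin N →₀ ℕ // β.degree = 3 ∧ ∃ a, ¬ q a ∧ β a ≠ 0}

/-- the cubic monomials which vanish on `P` and on `W` -/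
abbrev MS (q : Fin (k + 1 + (m + 1)) → Prop) : Type :=
  {β : Fin (k + 1 + (m + 1)) →₀ ℕ // β.degree = 3 ∧ Sq q β}

instance finite_MQ {N : ℕ} (q : Fin N → Prop) : Finite (MQ q) := by
  have := finite_degree N 3
  exact Finite.of_injective (fun β : MQ q =>
    (⟨β.1, β.2.1⟩ : {γ : Fin N →₀ ℕ // γ.degree = 3})) (by
      intro a b hab
      exact Subtype.ext (by simpa using hab))

instance finite_MS (q : Fin (k + 1 + (m + 1)) → Prop) : Finite (MS q) := by
  have := finite_degree (k + 1 + (m + 1)) 3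
  exact Finite.of_injective (fun β : MS q =>
    (⟨β.1, β.2.1⟩ : {γ : Fin (k + 1 + (m + 1)) →₀ ℕ // γ.degree = 3})) (by
      intro a b hab
      exact Subtype.ext (by simpa using hab))

instance finite_EQ (q : Fin (k + 1 + (m + 1)) → Prop) : Finite (EQ q) := by
  have := finite_degree (k + 1) 3
  exact Finite.of_injective (fun β : EQ q =>
    (⟨β.1, β.2.1⟩ : {γ : Fin (k + 1) →₀ ℕ // γ.degree = 3})) (by
      intro a b hab
      exact Subtype.ext (by simpa using hab))

theorem mapDomain_nat (γ : Fin (k + 1) →₀ ℕ) (j : Fin (m + 1)) :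
    γ.mapDomain (Fin.castAdd (m + 1)) (Fin.natAdd (k + 1) j) = 0 := by
  refine Finsupp.mapDomain_of_notMem_range _ _ ?_
  rintro ⟨i, hi⟩
  have := congrArg Fin.val hi
  simp at this
  omega

theorem mapDomain_cast (γ : Fin (k + 1) →₀ ℕ) (i : Fin (k + 1)) :
    γ.mapDomain (Fin.castAdd (m + 1)) (Fin.castAdd (m + 1) i) = γ i :=
  Finsupp.mapDomain_apply (Fin.castAdd_injective _ _) _ _

theorem card_ms (q : Fin (k + 1 + (m + 1)) → Prop) :
    Nat.card (MS q) + Nat.card (EQ q) ≤ Nat.card (MQ q) := by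
  classical
  rw [← Nat.card_sum]
  refine Nat.card_le_card_of_injective (Sum.elim
    (fun β : MS q => (⟨β.1, β.2.1, β.2.2.1⟩ : MQ q))
    (fun γ : EQ q => (⟨γ.1.mapDomain (Fin.castAdd (m + 1)), by
      rw [Finsupp.degree_mapDomain]; exact γ.2.1, by
      obtain ⟨i, hi, h⟩ := γ.2.2
      exact ⟨Fin.castAdd (m + 1) i, hi, by rwa [mapDomain_cast]⟩⟩ : MQ q))) ?_
  rintro (a | a) (b | b) hab
  · simp only [Sum.elim_inl, Subtype.mk.injEq] at hab
    exact congrArg Sum.inl (Subtype.ext hab)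
  · simp only [Sum.elim_inl, Sum.elim_inr, Subtype.mk.injEq] at hab
    obtain ⟨j, hj⟩ := a.2.2.2
    exact absurd (by rw [hab]; exact mapDomain_nat _ _) hj
  · simp only [Sum.elim_inl, Sum.elim_inr, Subtype.mk.injEq] at hab
    obtain ⟨j, hj⟩ := b.2.2.2
    exact absurd (by rw [← hab]; exact mapDomain_nat _ _) hj
  · simp only [Sum.elim_inr, Subtype.mk.injEq] at hab
    exact congrArg Sum.inr (Subtype.ext (Finsupp.mapDomain_injective
      (Fin.castAdd_injective _ _) hab))

theorem trda' (q : Fin (k + 1 + (m + 1)) → Prop) (F : MvPolynomial (Fin (k + 1 + (m + 1))) ℂ)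
    (hF : F.IsHomogeneous 3) (hQ : VanQ q F)
    (hind : AlgebraicIndependent ℚ (fun β : MQ q => coeff β.1 F))
    (K : Type) [Field K] [CharZero K] [Algebra ℂ K] (U : Fin (k + 1) → Fin (m + 1) → K)
    (hU : Pat q U) (Θ : Finset (PT q))
    (hΘ : AlgebraicIndependent ℂ (fun τ : Θ => U τ.1.1.1 τ.1.1.2))
    (hle : Nat.card (PT q) ≤ Θ.card + Nat.card (EQ q))
    (hvan : VanW (shear U (map (algebraMap ℂ K) F))) :
    Nat.card (PT q) = Θ.card + Nat.card (EQ q) ∧
      AlgebraicIndependent ℚ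
        (fun β : MS q => coeff β.1 (shear U (map (algebraMap ℂ K) F))) := by
  classical
  set FK := map (algebraMap ℂ K) F with hFK
  set F' := shear U FK with hF'
  have hFKh : FK.IsHomogeneous 3 := hF.map _
  have hF'h : F'.IsHomogeneous 3 := shear_isHomogeneous' U hFKh
  have hF'Q : VanQ q F' := vanQ_shear hU (hQ.map _)
  -- the independent family
  have hind2 : AlgebraicIndependent ℚ (Sum.elim (fun τ : Θ => U τ.1.1.1 τ.1.1.2)
      (algebraMap ℂ K ∘ fun β : MQ q => coeff β.1 F)) := hind.sumElim_comp hΘ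
  have hcard := rk_range hind2
  set f' : MS q → K := fun β => coeff β.1 F' with hf'
  set T : Set K := range (fun τ : PT q => U τ.1.1 τ.1.2) with hT
  set L0 := IntermediateField.adjoin ℚ (range f' ∪ T) with hL0
  have hUm : ∀ i j, U i j ∈ L0 := by
    intro i j
    by_cases h : q (Fin.castAdd (m + 1) i) ∧ ¬ q (Fin.natAdd (k + 1) j)
    · rw [hU i j h.1 h.2]
      exact zero_mem _
    · exact IntermediateField.subset_adjoin ℚ _ (Or.inr ⟨⟨(i, j), h⟩, rfl⟩)
  have hF'c : ∀ β, coeff β F' ∈ L0 := by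
    intro β
    by_cases h1 : β.degree = 3
    · by_cases h2 : Sq q β
      · exact IntermediateField.subset_adjoin ℚ _ (Or.inl ⟨⟨β, h1, h2⟩, rfl⟩)
      · rw [coeff_of_not_sq hF'Q hvan β h2]
        exact zero_mem _
    · rw [hF'h.coeff_eq_zero h1]
      exact zero_mem _
  obtain ⟨F'', hF''⟩ : F' ∈ Set.range (MvPolynomial.map (algebraMap L0 K)) := by
    rw [mem_range_map_iff_coeffs_subset]
    intro c hc
    obtain ⟨β, -, rfl⟩ := mem_coeffs_iff.mp hc
    exact ⟨⟨_, hF'c β⟩, rfl⟩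
  have hFKc : ∀ β, coeff β FK ∈ L0 := by
    intro β
    have h1 : FK = map (algebraMap L0 K)
        (shear (fun i j => (⟨-U i j, neg_mem (hUm i j)⟩ : L0)) F'') := by
      rw [shear_map', hF'', hF']
      exact (shear_neg' U FK).symm
    rw [h1, coeff_map]
    exact (coeff β _ : L0).2
  have hsub : range (Sum.elim (fun τ : Θ => U τ.1.1.1 τ.1.1.2)
      (algebraMap ℂ K ∘ fun β : MQ q => coeff β.1 F)) ⊆ (L0 : Set K) := by
    rintro _ ⟨(τ | β), rfl⟩
    · exact hUm _ _
    · have := hFKc β.1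
      rw [hFK, coeff_map] at this
      exact this
  have h1 := (rk_le_of_subset_adjoin ℚ K hsub).trans (rk_union_le ℚ K (range f') T)
  rw [hcard] at h1
  have hTc : T.encard ≤ ENat.card (PT q) := encard_range_le K _
  have h2 := rk_range_le (k := ℚ) f'
  have h3 := h1.trans (add_le_add_right hTc _)
  have hmon := card_ms q
  have e1 : ENat.card (Θ ⊕ MQ q) = ((Θ.card + Nat.card (MQ q) : ℕ) : ℕ∞) := by
    rw [ENat.card_eq_coe_natCard, Nat.card_sum]
    simp
  have e2 : ENat.card (PT q) = ((Nat.card (PT q) : ℕ) : ℕ∞) := ENat.card_eq_coe_natCard _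
  have e3 : ENat.card (MS q) = ((Nat.card (MS q) : ℕ) : ℕ∞) := ENat.card_eq_coe_natCard _
  rw [e3] at h2
  obtain ⟨r, hr⟩ : ∃ r : ℕ, rk ℚ K (range f') = (r : ℕ∞) := by
    obtain ⟨r, hr, -⟩ := ENat.le_natCast_iff.mp h2
    exact ⟨r, hr⟩
  rw [hr] at h2
  rw [e1, e2, hr] at h3
  have h2' : r ≤ Nat.card (MS q) := by exact_mod_cast h2
  have h3' : Θ.card + Nat.card (MQ q) ≤ r + Nat.card (PT q) := by exact_mod_cast h3
  refine ⟨by omega, ?_⟩
  have h4 : ENat.card (MS q) ≤ rk ℚ K (range f') := by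
    rw [e3, hr]
    have : Nat.card (MS q) ≤ r := by omega
    exact_mod_cast this
  exact indep_of_le h4

end Pool.Agent.U221.VG
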